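import Mathlib

/-!
# Selmer groups near a representation: statements of the jobs (helper499)

Everything here is elementary analysis over ultrametric fields; nothing about number fields. Mathlib only.
-/

set_option autoImplicit false

namespace Pool.Agent.H499.SM

open Matrix Filter Topology

/-- **Job CONJ.** A representation whose traces are near the traces of an absolutely irreducible representation `ρ`
is conjugate to a representation near `ρ`; the constant `C` does not depend on the field `L`.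

Paper proof. Write `|M|` for the maximum of the norms of the entries; it is submultiplicative (ultrametric) and
`|tr M| ≤ |M|`. Choose `g_1, …, g_N`, `N = n²`, with `ρ(g_a)` a basis of `M_n(E)` and write the matrix units
`E_ij = ∑_a λ^{ij}_a ρ(g_a)`, `|λ| ≤ C₁`, `C₁ ≥ 1`. Put `e_ij = ∑_a λ^{ij}_a g_a` (formal combination) and
`ρ'(e_ij) = ∑_a λ^{ij}_a ρ'(g_a)`, `|ρ'(e_ij)| ≤ C₁ B`. The Gram matrix `tr ρ(g_a g_b)` is invertible (trace form of
the matrix algebra); let `δ` be the norm of its determinant, `δ ≤ 1`. The Gram matrix of `ρ'` is congruent to it up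
to `ε`, so if `ε < δ` its determinant has norm `δ`, too, hence the `ρ'(g_a)` are a basis of `M_n(L)`, and every
`M` satisfies `|M| ≤ C₂ max_b |tr (M ρ'(g_b))|` with `C₂ = C(B, n)/δ` (Cramer's rule for the coordinates of `M`).
So: (*) if `x, y` are formal combinations `∑_k μ_k h_k` of elements of `G`, with coefficients in `E` of norm at most
`C₃`, and `ρ(x) = ρ(y)`, then `|ρ'(x) - ρ'(y)| ≤ C₂ C₃ ε`, since `tr ρ((x - y) g_b) = 0`.
Apply (*) to `g e_ij` and `∑_k ρ(g)_ki e_kj`; to `e_1k e_i1` and `δ_ki e_11`. As `|tr ρ'(e_11) - 1| ≤ C₁ ε < 1`,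
`|ρ'(e_11)| ≥ 1`, so some standard basis vector `v` has `|ρ'(e_11) v| ≥ 1`. Let `X` be the matrix with the columns
`X ε_i = ρ'(e_i1) v`. Then `ρ'(e_1k) X u = ∑_i u_i ρ'(e_1k) ρ'(e_i1) v` is `u_k ρ'(e_11) v` up to `C ε |u|`, so
`|X u| ≥ |u| / (C₁ B)` if `C ε < 1`; so `X` is invertible, `|X⁻¹| ≤ C₁ B`, and
`ρ'(g) X ε_i = ρ'(g e_i1) v` is `∑_k ρ(g)_ki X ε_k = X ρ(g) ε_i` up to `C ε`, so `|X⁻¹ ρ'(g) X - ρ(g)| ≤ C' ε`. -/
def S_CONJ : Prop :=
  ∀ (E : Type) [NormedField E] [IsUltrametricDist E] (G : Type) [Group G] (n : ℕ), 0 < n →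
  ∀ ρ : G →* Matrix (Fin n) (Fin n) E, (∀ g i j, ‖ρ g i j‖ ≤ 1) →
    Submodule.span E (Set.range fun g => ρ g) = ⊤ → ∀ B : ℝ,
  ∃ C : ℝ, 0 < C ∧ ∀ (L : Type) [NormedField L] [NormedAlgebra E L] [IsUltrametricDist L]
    (ρ' : G →* Matrix (Fin n) (Fin n) L), (∀ g i j, ‖ρ' g i j‖ ≤ B) → ∀ ε : ℝ, C * ε < 1 →
    (∀ g, ‖(ρ' g).trace - algebraMap E L (ρ g).trace‖ ≤ ε) →
    ∃ X : GL (Fin n) L, ∀ g i j,
      ‖(((X⁻¹ : GL (Fin n) L) : Matrix (Fin n) (Fin n) L) * ρ' g * (X : Matrix (Fin n) (Fin n) L)) i j -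
        algebraMap E L (ρ g i j)‖ ≤ C * ε

/-- **Job ORTH.** Orthogonal bases modulo a subspace over a locally compact ultrametric field.

Paper proof. Induction on `r`: let `w 0, …, w (r-1)` be constructed for `c 0, …, c (r-1)` and let
`U' = U + span (w 0, …, w (r-1))`, which is finite dimensional, so it is a proper metric space
(`FiniteDimensional.proper`), and the distance of `c r` to `U'` is attained (`IsClosed.exists_infDist_eq_dist` for a
closed subset of a proper space; `U'` is closed, `Submodule.closed_of_finiteDimensional`), at `u'`;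
put `w r = c r - u'`. Then `‖w r‖ ≤ ‖w r - y‖` for all `y ∈ U'`, and by the ultrametric inequality
`max (‖a • w r‖, ‖y‖) ≤ ‖a • w r + y‖` for all `a` and `y ∈ U'`. Finally multiply by powers of `ϖ`
(`‖ϖ‖ < ‖ϖ ^ k • w‖ ≤ 1` for one integer `k`, as `w ≠ 0`). -/
def S_ORTH : Prop :=
  ∀ (F : Type) [NontriviallyNormedField F] [ProperSpace F] (V : Type) [NormedAddCommGroup V] [NormedSpace F V]
    [IsUltrametricDist V] (U : Submodule F V) [FiniteDimensional F U] (r : ℕ) (c : Fin r → V) (ϖ : F),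
    0 < ‖ϖ‖ → ‖ϖ‖ < 1 → (∀ a : Fin r → F, ∑ i, a i • c i ∈ U → a = 0) →
    ∃ w : Fin r → V, (∀ i, w i ∈ Submodule.span F (Set.range c) ⊔ U) ∧
      (∀ i, c i ∈ Submodule.span F (Set.range w) ⊔ U) ∧ (∀ i, ‖ϖ‖ < ‖w i‖ ∧ ‖w i‖ ≤ 1) ∧
      ∀ (a : Fin r → F), ∀ u ∈ U, ∀ i, ‖a i • w i‖ ≤ ‖∑ j, a j • w j + u‖

/-- Finiteness in the manner of Hermite and Minkowski: there are only finitely many open subgroups of bounded index
which contain `I`. -/
def HMFin (G : Type) [Group G] [TopologicalSpace G] (I : Set G) : Prop :=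
  ∀ D : ℕ, {H : Subgroup G | IsOpen (H : Set G) ∧ H.index ≤ D ∧ I ⊆ H}.Finite

/-- a continuous isometric action of `G` on the normed space `V` -/
structure Act {G E V : Type} [Group G] [TopologicalSpace G] [NormedField E] [NormedAddCommGroup V] [NormedSpace E V]
    (A : G →* Module.End E V) : Prop where
  le : ∀ g x, ‖A g x‖ ≤ ‖x‖
  cont : ∀ x, Continuous fun g => A g x

/-- **Job LIM.** Limits of approximate cocycles.

Paper proof. (1) Fix `δ > 0`. Cover the compact ball of radius `R` of `V` by finitely many closed balls of radius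
`δ` (`V` is proper, `FiniteDimensional.proper`), let `D` be their number. Let `z` be continuous, `‖z‖ ≤ R`, zero on
`I`, with `‖z (g h) - z g - A g (z h)‖ ≤ δ`. Then `H_z = {h | ‖z h‖ ≤ δ}` is a subgroup (`‖z 1‖ ≤ δ` from `g = h = 1`;
`‖A g x‖ = ‖x‖` as `A g⁻¹` is also norm-nonincreasing), open (closed balls of positive radius are open in an
ultrametric space), contains `I`, and `‖z (g₁⁻¹ g₂)‖ ≤ δ` if and only if `‖z g₁ - z g₂‖ ≤ δ`, so the index of `H_z` is
at most `D`. By `HMFin` the intersection `N_δ` of all open subgroups of index `≤ D` containing `I` is open (and of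
finite index, `G` being compact), and `‖z (g h) - z g‖ ≤ δ` for `h ∈ N_δ`: a subgroup which is independent of `z`.
(2) Let `c g` be the limit of `z m g` along the ultrafilter `𝓤` (in the compact ball). It is a cocycle, zero on `I`.
For `δ > 0` and the finitely many representatives `q` of `G / N_δ`, `‖z m q - c q‖ ≤ δ` for `𝓤`-almost all `m`; and
`‖z m (q h) - z m q‖ ≤ δ` for `h ∈ N_δ` and all `m` with `ε m ≤ δ`, so `‖c (q h) - c q‖ ≤ δ` as well. So
`‖z m g - c g‖ ≤ δ` for all `g`, for `𝓤`-almost all `m`; and `c` is continuous. -/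
def S_LIM : Prop :=
  ∀ (E : Type) [NontriviallyNormedField E] [ProperSpace E] (V : Type) [NormedAddCommGroup V] [NormedSpace E V]
    [IsUltrametricDist V] [FiniteDimensional E V] (G : Type) [Group G] [TopologicalSpace G] [IsTopologicalGroup G]
    [CompactSpace G] (I : Set G), HMFin G I → ∀ A : G →* Module.End E V, Act A →
  ∀ (𝓤 : Ultrafilter ℕ) (R : ℝ) (ε : ℕ → ℝ) (z : ℕ → G → V), Tendsto ε 𝓤 (𝓝 0) → (∀ m, Continuous (z m)) →
    (∀ m g, ‖z m g‖ ≤ R) → (∀ m, ∀ g ∈ I, z m g = 0) →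
    (∀ m g h, ‖z m (g * h) - z m g - A g (z m h)‖ ≤ ε m) →
    ∃ c : G → V, Continuous c ∧ (∀ g h, c (g * h) = c g + A g (c h)) ∧ (∀ g ∈ I, c g = 0) ∧
      ∀ η : ℝ, 0 < η → ∀ᶠ m in (𝓤 : Filter ℕ), ∀ g, ‖z m g - c g‖ ≤ η

/-- **Job FD.** The space of the continuous cocycles which are zero on `I` is finite dimensional.

Paper proof. Let `0 < ‖ϖ‖ < 1` and let `N` be the open subgroup of (1) of the proof of `S_LIM` for `R = 1`,
`δ = ‖ϖ‖`, `Q` a finite set of representatives of `G / N`. If `c` is a cocycle which vanishes on `Q` then `c = 0`: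
otherwise multiply it by a power of `ϖ` such that `‖ϖ‖ < sup ‖c g‖ ≤ 1` (`G` is compact); then
`‖c (q h)‖ = ‖c (q h) - c q‖ ≤ ‖ϖ‖` for all `q h`, a contradiction. So the restriction to `Q` is an injective linear
map to `Q → V`. -/
def S_FD : Prop :=
  ∀ (E : Type) [NontriviallyNormedField E] [ProperSpace E] (V : Type) [NormedAddCommGroup V] [NormedSpace E V]
    [IsUltrametricDist V] [FiniteDimensional E V] (G : Type) [Group G] [TopologicalSpace G] [IsTopologicalGroup G]
    [CompactSpace G] (I : Set G), HMFin G I → ∀ A : G →* Module.End E V, Act A →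
  ∃ r : ℕ, ∀ c : Fin (r + 1) → G → V,
    (∀ i, Continuous (c i) ∧ (∀ g h, c i (g * h) = c i g + A g (c i h)) ∧ ∀ g ∈ I, c i g = 0) →
    ∃ a : Fin (r + 1) → E, a ≠ 0 ∧ ∀ g, ∑ i, a i • c i g = 0

/-- **Job LIMREP.** Limits of representations.

Paper proof. As for `S_LIM`: for `δ ≤ 1` the set `{g | ∀ i j, ‖(ρ m g - 1) i j‖ ≤ δ}` is an open subgroup which contains
`I`, and `ρ m g₁`, `ρ m g₂` are congruent (all entries of the difference have norm `≤ δ`) if and only if
`g₁⁻¹ g₂` is in it (multiply by the integral matrix `ρ m g₁⁻¹`), so its index is at most the number of balls of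
radius `δ` which are necessary to cover the unit ball of the space of the matrices. -/
def S_LIMREP : Prop :=
  ∀ (E : Type) [NontriviallyNormedField E] [ProperSpace E] [IsUltrametricDist E]
    (G : Type) [Group G] [TopologicalSpace G] [IsTopologicalGroup G] [CompactSpace G] (I : Set G), HMFin G I →
  ∀ (n : ℕ) (𝓤 : Ultrafilter ℕ) (ρ : ℕ → G →* Matrix (Fin n) (Fin n) E),
    (∀ m i j, Continuous fun g => ρ m g i j) → (∀ m g i j, ‖ρ m g i j‖ ≤ 1) → (∀ m, ∀ g ∈ I, ρ m g = 1) →
    ∃ ρ' : G →* Matrix (Fin n) (Fin n) E, (∀ i j, Continuous fun g => ρ' g i j) ∧ (∀ g i j, ‖ρ' g i j‖ ≤ 1) ∧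
      (∀ g ∈ I, ρ' g = 1) ∧
      ∀ η : ℝ, 0 < η → ∀ᶠ m in (𝓤 : Filter ℕ), ∀ g i j, ‖ρ m g i j - ρ' g i j‖ ≤ η

end Pool.Agent.H499.SM
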