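import Pool.Agent.H499.SM.Stm

/-!
# Limits of approximate cocycles and finite dimension (jobs LIM and FD of helper499; helper230)
-/

set_option autoImplicit false

namespace Pool.Agent.H230.SM

open Matrix Filter Topology Pool.Agent.H499.SM

section

variable {E : Type} [NontriviallyNormedField E] {V : Type} [NormedAddCommGroup V]
  [NormedSpace E V] [IsUltrametricDist V] {G : Type} [Group G] [TopologicalSpace G]

theorem um (x y : V) : ‖x + y‖ ≤ max ‖x‖ ‖y‖ := IsUltrametricDist.norm_add_le_max x y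

theorem ums {x y : V} {r : ℝ} (h1 : ‖x‖ ≤ r) (h2 : ‖y‖ ≤ r) : ‖x + y‖ ≤ r :=
  (um x y).trans (max_le h1 h2)

theorem umd {x y : V} {r : ℝ} (h1 : ‖x‖ ≤ r) (h2 : ‖y‖ ≤ r) : ‖x - y‖ ≤ r := by
  rw [sub_eq_add_neg]
  exact ums h1 (by rwa [norm_neg])

omit [IsUltrametricDist V] in
theorem iso {A : G →* Module.End E V} (hA : Act A) (g : G) (x : V) : ‖A g x‖ = ‖x‖ := by
  refine le_antisymm (hA.le g x) ?_
  have h := hA.le g⁻¹ (A g x)
  have e : A g⁻¹ (A g x) = x := by
    rw [← Module.End.mul_apply, ← map_mul, inv_mul_cancel, map_one, Module.End.one_apply]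
  rwa [e] at h

/-- `z` is an approximate cocycle -/
structure App (A : G →* Module.End E V) (I : Set G) (R δ : ℝ) (z : G → V) : Prop where
  cont : Continuous z
  bd : ∀ g, ‖z g‖ ≤ R
  zero : ∀ g ∈ I, z g = 0
  coc : ∀ g h, ‖z (g * h) - z g - A g (z h)‖ ≤ δ

variable {A : G →* Module.End E V} {I : Set G} {R δ : ℝ} {z : G → V}

theorem App.diff (hA : Act A) (hz : App A I R δ z) {g h : G} (hh : ‖z h‖ ≤ δ) :
    ‖z (g * h) - z g‖ ≤ δ := by
  have e : z (g * h) - z g = (z (g * h) - z g - A g (z h)) + A g (z h) := by abel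
  rw [e]
  exact ums (hz.coc g h) (by rwa [iso hA])

theorem App.diff' (hA : Act A) (hz : App A I R δ z) {g h : G} (hh : ‖z (g * h) - z g‖ ≤ δ) :
    ‖z h‖ ≤ δ := by
  have e : A g (z h) = (z (g * h) - z g) - (z (g * h) - z g - A g (z h)) := by abel
  rw [← iso hA g, e]
  exact umd hh (hz.coc g h)

theorem App.one (hA : Act A) (hz : App A I R δ z) : ‖z 1‖ ≤ δ := by
  refine hz.diff' hA (g := 1) (h := 1) ?_
  rw [mul_one, sub_self, norm_zero]
  exact (norm_nonneg _).trans (hz.coc 1 1)

/-- the subgroup `H_z` -/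
def App.sub (hA : Act A) (hz : App A I R δ z) : Subgroup G where
  carrier := {h | ‖z h‖ ≤ δ}
  one_mem' := hz.one hA
  mul_mem' := by
    intro a b ha hb
    have h1 := hz.diff hA (g := a) hb
    have e : z (a * b) = (z (a * b) - z a) + z a := by abel
    show ‖z (a * b)‖ ≤ δ
    rw [e]
    exact ums h1 ha
  inv_mem' := by
    intro a ha
    refine hz.diff' hA (g := a) ?_
    rw [mul_inv_cancel]
    exact umd (hz.one hA) ha

theorem App.mem_sub (hA : Act A) (hz : App A I R δ z) {h : G} : h ∈ hz.sub hA ↔ ‖z h‖ ≤ δ :=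
  Iff.rfl

theorem App.index (hA : Act A) (hz : App A I R δ z) (t : Finset V)
    (ht : Metric.closedBall (0 : V) R ⊆ ⋃ x ∈ t, Metric.closedBall x δ) :
    (hz.sub hA).index ≤ t.card := by
  have h1 : ∀ q : G ⧸ hz.sub hA, ∃ x : t, ‖z q.out - x‖ ≤ δ := by
    intro q
    have h2 : z q.out ∈ Metric.closedBall (0 : V) R := by
      rw [mem_closedBall_zero_iff]
      exact hz.bd _
    obtain ⟨x, hx, hd⟩ := Set.mem_iUnion₂.1 (ht h2)
    exact ⟨⟨x, hx⟩, by rwa [← mem_closedBall_iff_norm]⟩
  choose f hf using h1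
  have hinj : Function.Injective f := by
    intro q q' hqq
    have h3 : ‖z q'.out - z q.out‖ ≤ δ := by
      have e : z q'.out - z q.out = (z q'.out - f q') - (z q.out - f q) := by
        rw [hqq]
        abel
      rw [e]
      exact umd (hf q') (hf q)
    have h4 : q.out⁻¹ * q'.out ∈ hz.sub hA := by
      rw [hz.mem_sub hA]
      refine hz.diff' hA (g := q.out) ?_
      rwa [mul_inv_cancel_left]
    rw [← q.out_eq', ← q'.out_eq']
    exact (QuotientGroup.eq).2 h4
  have h5 := Nat.card_le_card_of_injective f hinj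
  rw [Nat.card_eq_fintype_card (α := t), Fintype.card_coe] at h5
  exact h5

theorem exists_N [ProperSpace E] [FiniteDimensional E V] (hI : HMFin G I) (hA : Act A) (R : ℝ)
    {δ : ℝ} (hδ : 0 < δ) : ∃ N : Subgroup G, IsOpen (N : Set G) ∧
      ∀ z : G → V, App A I R δ z → ∀ h ∈ N, ‖z h‖ ≤ δ := by
  have hprop : ProperSpace V := FiniteDimensional.proper E V
  obtain ⟨t, -, htf, ht⟩ := (isCompact_closedBall (0 : V) R).finite_cover_balls hδ
  have ht' : Metric.closedBall (0 : V) R ⊆ ⋃ x ∈ htf.toFinset, Metric.closedBall x δ := by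
    refine ht.trans ?_
    intro y hy
    obtain ⟨x, hx, hy⟩ := Set.mem_iUnion₂.1 hy
    exact Set.mem_iUnion₂.2 ⟨x, htf.mem_toFinset.2 hx, Metric.ball_subset_closedBall hy⟩
  refine ⟨sInf {H : Subgroup G | IsOpen (H : Set G) ∧ H.index ≤ htf.toFinset.card ∧ I ⊆ H},
    ?_, ?_⟩
  · rw [Subgroup.coe_sInf]
    exact (hI _).isOpen_biInter (fun H hH => hH.1)
  · intro z hz h hh
    have h1 : hz.sub hA ∈ {H : Subgroup G | IsOpen (H : Set G) ∧
        H.index ≤ htf.toFinset.card ∧ I ⊆ H} := by
      refine ⟨?_, hz.index hA _ ht', ?_⟩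
      · have e : ((hz.sub hA : Subgroup G) : Set G) = z ⁻¹' Metric.closedBall 0 δ := by
          ext g
          rw [Set.mem_preimage, mem_closedBall_zero_iff]
          rfl
        rw [e]
        exact (IsUltrametricDist.isOpen_closedBall 0 hδ.ne').preimage hz.cont
      · intro g hg
        show ‖z g‖ ≤ δ
        rw [hz.zero g hg, norm_zero]
        exact hδ.le
    exact (Subgroup.mem_sInf.1 hh) _ h1

end

theorem t_LIM : S_LIM := by
  intro E _ _ V _ _ _ _ G _ _ _ _ I hI A hA 𝓤 R ε z hε hcont hbd hzero hcoc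
  have hprop : ProperSpace V := FiniteDimensional.proper E V
  have hlim : ∀ g, ∃ x : V, Tendsto (fun m => z m g) (𝓤 : Filter ℕ) (𝓝 x) := by
    intro g
    obtain ⟨x, -, hx⟩ := (isCompact_closedBall (0 : V) R).ultrafilter_le_nhds
      (𝓤.map (fun m => z m g)) (by
        rw [le_principal_iff]
        refine Filter.mem_map.2 (Filter.univ_mem' fun m => ?_)
        show z m g ∈ Metric.closedBall 0 R
        rw [mem_closedBall_zero_iff]
        exact hbd m g)
    exact ⟨x, hx⟩
  choose c hc using hlim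
  have hAc : ∀ g, Continuous (A g) := fun g => LinearMap.continuous_of_finiteDimensional (A g)
  have hunif : ∀ η : ℝ, 0 < η → ∀ᶠ m in (𝓤 : Filter ℕ), ∀ g, ‖z m g - c g‖ ≤ η := by
    intro η hη
    obtain ⟨N, hNo, hN⟩ := exists_N (V := V) hI hA R hη
    have hfin : Finite (G ⧸ N) := Subgroup.quotient_finite_of_isOpen N hNo
    have hev : ∀ᶠ m in (𝓤 : Filter ℕ), ε m ≤ η := hε.eventually_le_const hη
    have happ : ∀ᶠ m in (𝓤 : Filter ℕ), App A I R η (z m) := by
      filter_upwards [hev] with m hm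
      exact ⟨hcont m, hbd m, hzero m, fun g h => (hcoc m g h).trans hm⟩
    have hdiff : ∀ᶠ m in (𝓤 : Filter ℕ), ∀ g, ∀ h ∈ N, ‖z m (g * h) - z m g‖ ≤ η := by
      filter_upwards [happ] with m hm
      intro g h hh
      exact hm.diff hA (hN _ hm h hh)
    have hcd : ∀ g, ∀ h ∈ N, ‖c (g * h) - c g‖ ≤ η := by
      intro g h hh
      refine le_of_tendsto ((hc (g * h)).sub (hc g)).norm ?_
      filter_upwards [hdiff] with m hm
      exact hm g h hh
    have hq : ∀ᶠ m in (𝓤 : Filter ℕ), ∀ q : G ⧸ N, ‖z m q.out - c q.out‖ ≤ η := by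
      rw [Filter.eventually_all]
      intro q
      have h1 := ((hc q.out).sub_const (c q.out)).norm
      rw [sub_self, norm_zero] at h1
      exact h1.eventually_le_const hη
    filter_upwards [hdiff, hq] with m h1 h2
    intro g
    have hg : (QuotientGroup.mk g : G ⧸ N).out⁻¹ * g ∈ N := by
      rw [← QuotientGroup.eq]
      exact Quotient.out_eq' _
    have k1 := h1 (QuotientGroup.mk g : G ⧸ N).out _ hg
    have k2 := hcd (QuotientGroup.mk g : G ⧸ N).out _ hg
    rw [mul_inv_cancel_left] at k1 k2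
    have k3 := h2 (QuotientGroup.mk g : G ⧸ N)
    have e : z m g - c g = ((z m g - z m (QuotientGroup.mk g : G ⧸ N).out) +
        (z m (QuotientGroup.mk g : G ⧸ N).out - c (QuotientGroup.mk g : G ⧸ N).out)) -
        (c g - c (QuotientGroup.mk g : G ⧸ N).out) := by abel
    rw [e]
    exact umd (ums k1 k3) k2
  refine ⟨c, ?_, ?_, ?_, hunif⟩
  · have hu : TendstoUniformly z c (𝓤 : Filter ℕ) := by
      rw [Metric.tendstoUniformly_iff]
      intro η hη
      filter_upwards [hunif (η / 2) (by linarith)] with m hm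
      intro g
      rw [dist_comm, dist_eq_norm]
      linarith [hm g]
    exact hu.continuous (Eventually.of_forall hcont).frequently
  · intro g h
    have h1 : Tendsto (fun m => z m (g * h) - z m g - A g (z m h)) (𝓤 : Filter ℕ)
        (𝓝 (c (g * h) - c g - A g (c h))) :=
      ((hc (g * h)).sub (hc g)).sub (((hAc g).tendsto (c h)).comp (hc h))
    have h2 : Tendsto (fun m => z m (g * h) - z m g - A g (z m h)) (𝓤 : Filter ℕ) (𝓝 0) :=
      squeeze_zero_norm (fun m => hcoc m g h) hε
    have h3 := tendsto_nhds_unique h1 h2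
    rw [sub_sub, sub_eq_zero] at h3
    exact h3
  · intro g hg
    refine tendsto_nhds_unique (hc g) ?_
    refine tendsto_const_nhds.congr (fun m => ?_)
    rw [hzero m g hg]

theorem t_FD : S_FD := by
  intro E _ _ V _ _ _ _ G _ _ _ _ I hI A hA
  obtain ⟨e, he⟩ := NormedField.exists_one_lt_norm E
  have he0 : 0 < ‖e‖ := one_pos.trans he
  have hδ : 0 < 1 / (2 * ‖e‖) := by positivity
  obtain ⟨N, hNo, hN⟩ := exists_N (V := V) hI hA 1 hδ
  have hfin : Finite (G ⧸ N) := Subgroup.quotient_finite_of_isOpen N hNo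
  have hft : Fintype (G ⧸ N) := Fintype.ofFinite _
  refine ⟨Module.finrank E ((G ⧸ N) → V), ?_⟩
  intro c hc
  -- a combination which vanishes on the representatives
  have hdep : ¬ LinearIndependent E (fun i : Fin (Module.finrank E ((G ⧸ N) → V) + 1) =>
      (fun q : G ⧸ N => c i q.out)) := by
    intro hl
    have := hl.fintype_card_le_finrank
    simp at this
  rw [Fintype.linearIndependent_iff] at hdep
  push Not at hdep
  obtain ⟨a, ha, i0, hi0⟩ := hdep
  refine ⟨a, fun h => hi0 (by rw [h]; rfl), ?_⟩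
  have hrep : ∀ q : G ⧸ N, ∑ i, a i • c i q.out = 0 := by
    intro q
    have := congrFun ha q
    simpa [Finset.sum_apply] using this
  let c' : G → V := fun g => ∑ i, a i • c i g
  have hcont : Continuous c' := continuous_finsetSum _ fun i _ => (hc i).1.const_smul (a i)
  have hcoc : ∀ g h, c' (g * h) = c' g + A g (c' h) := by
    intro g h
    simp only [c', map_sum, map_smul]
    rw [← Finset.sum_add_distrib]
    refine Finset.sum_congr rfl fun i _ => ?_
    rw [(hc i).2.1 g h, smul_add]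
  have hz : ∀ g ∈ I, c' g = 0 := by
    intro g hg
    refine Finset.sum_eq_zero fun i _ => ?_
    rw [(hc i).2.2 g hg, smul_zero]
  obtain ⟨g₁, -, hg₁⟩ := isCompact_univ.exists_isMaxOn (s := (Set.univ : Set G))
    ⟨1, Set.mem_univ _⟩ (f := fun g => ‖c' g‖) hcont.norm.continuousOn
  have hmax : ∀ g, ‖c' g‖ ≤ ‖c' g₁‖ := fun g => hg₁ (Set.mem_univ g)
  by_cases h0 : c' g₁ = 0
  · intro g
    have := hmax g
    rw [h0, norm_zero] at this
    exact norm_le_zero_iff.1 this
  · exfalso
    obtain ⟨n, -, hn1, hn2, -⟩ := rescale_to_shell_zpow he one_pos h0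
    have hb : ∀ g, ‖e ^ n • c' g‖ ≤ 1 := by
      intro g
      refine le_trans ?_ hn1.le
      rw [norm_smul, norm_smul]
      exact mul_le_mul_of_nonneg_left (hmax g) (norm_nonneg _)
    have happ : App A I 1 (1 / (2 * ‖e‖)) (fun g => e ^ n • c' g) :=
      { cont := hcont.const_smul _
        bd := hb
        zero := fun g hg => by rw [hz g hg, smul_zero]
        coc := fun g h => by
          rw [hcoc g h, map_smul, smul_add, add_sub_cancel_left, sub_self, norm_zero]
          exact hδ.le }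
    have hg : (QuotientGroup.mk g₁ : G ⧸ N).out⁻¹ * g₁ ∈ N := by
      rw [← QuotientGroup.eq]
      exact Quotient.out_eq' _
    have k1 := happ.diff hA (g := (QuotientGroup.mk g₁ : G ⧸ N).out) (hN _ happ _ hg)
    rw [mul_inv_cancel_left] at k1
    have k2 : c' (QuotientGroup.mk g₁ : G ⧸ N).out = 0 := hrep _
    rw [k2, smul_zero, sub_zero] at k1
    have k3 : 1 / (2 * ‖e‖) < 1 / ‖e‖ := by
      apply one_div_lt_one_div_of_lt he0
      linarith
    linarith

end Pool.Agent.H230.SM
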