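import Pool.Agent.H499.SM.Final

/-! The values of continuous representations and cocycles lie in finite extensions of `ℚ_ℓ`. -/

set_option autoImplicit false
set_option linter.all false

namespace Pool.Agent.H499.SM

open Module IntermediateField Matrix NumberField IsDedekindDomain
open Pool.Agent.W401.Cheb (GK IsFrob IsInert)

variable {ℓ : ℕ} [Fact ℓ.Prime]

/-- Krasner: algebraic extensions are closed -/
theorem isClosed_field (L : IntermediateField ℚ_[ℓ] (PadicAlgCl ℓ)) : IsClosed (L : Set (PadicAlgCl ℓ)) := by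
  rw [← closure_subset_iff_isClosed]
  intro x hx
  have hint : ∀ z : PadicAlgCl ℓ, IsIntegral ℚ_[ℓ] z := fun z => Algebra.IsIntegral.isIntegral z
  have hfin : {x' : PadicAlgCl ℓ | IsConjRoot ℚ_[ℓ] x x' ∧ x ≠ x'}.Finite := by
    refine ((minpoly ℚ_[ℓ] x).rootSet_finite (PadicAlgCl ℓ)).subset ?_
    rintro x' ⟨h, _⟩
    exact (isConjRoot_iff_mem_minpoly_rootSet (hint x)).1 h
  have hmem : {x' : PadicAlgCl ℓ | IsConjRoot ℚ_[ℓ] x x' ∧ x ≠ x'}ᶜ ∈ nhds x :=
    hfin.isClosed.isOpen_compl.mem_nhds fun h => h.2 rfl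
  obtain ⟨δ, hδ, hball⟩ := Metric.mem_nhds_iff.1 hmem
  obtain ⟨y, hy, hxy⟩ := Metric.mem_closure_iff.1 hx δ hδ
  have hkr : x ∈ ℚ_[ℓ]⟮y⟯ := by
    refine IsKrasner.krasner (minpoly.irreducible (hint x)).separable
      (IsAlgClosed.splits _) (hint y) fun x' h1 h2 => ?_
    by_contra h3
    push Not at h3
    have h4 : x' ∈ Metric.ball x δ := by
      rw [Metric.mem_ball, dist_comm, dist_eq_norm]
      rw [dist_eq_norm] at hxy
      exact lt_of_le_of_lt h3 hxy
    exact hball h4 ⟨h1, h2⟩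
  have h5 : ℚ_[ℓ]⟮y⟯ ≤ L := by
    rw [adjoin_simple_le_iff]
    exact hy
  exact h5 hkr

/-- the entries of a continuous representation of a compact group lie in a finite extension of `ℚ_ℓ` -/
theorem fin_entries {G : Type} [Group G] [TopologicalSpace G] [IsTopologicalGroup G] [CompactSpace G]
    [T2Space G] {ι : Type} [Fintype ι] [DecidableEq ι] (ρ : G →* Matrix ι ι (PadicAlgCl ℓ))
    (hc : ∀ i j, Continuous fun g => ρ g i j) :
    ∃ E : IntermediateField ℚ_[ℓ] (PadicAlgCl ℓ), FiniteDimensional ℚ_[ℓ] E ∧ ∀ g i j, ρ g i j ∈ E := by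
  classical
  let f : G → (ι → ι → PadicAlgCl ℓ) := fun g i j => ρ g i j
  have hf : Continuous f := continuous_pi fun i => continuous_pi fun j => hc i j
  obtain ⟨D, hD, hfD⟩ := (isCompact_range hf).isSeparable
  have hT : {z : PadicAlgCl ℓ | ∃ d ∈ D, ∃ i j, d i j = z}.Countable := by
    have : {z : PadicAlgCl ℓ | ∃ d ∈ D, ∃ i j, d i j = z} = ⋃ d ∈ D, ⋃ i, ⋃ j, {d i j} := by
      ext z
      simp only [Set.mem_setOf_eq, Set.mem_iUnion, Set.mem_singleton_iff, exists_prop]
      constructor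
      · rintro ⟨d, hd, i, j, h⟩; exact ⟨d, hd, i, j, h.symm⟩
      · rintro ⟨d, hd, i, j, h⟩; exact ⟨d, hd, i, j, h.symm⟩
    rw [this]
    exact hD.biUnion fun d _ => Set.countable_iUnion fun i => Set.countable_iUnion fun j =>
      Set.countable_singleton _
  obtain ⟨t, ht⟩ : ∃ t : ℕ → PadicAlgCl ℓ, {z : PadicAlgCl ℓ | ∃ d ∈ D, ∃ i j, d i j = z} ⊆ Set.range t := by
    rcases Set.eq_empty_or_nonempty {z : PadicAlgCl ℓ | ∃ d ∈ D, ∃ i j, d i j = z} with h | h
    · rw [h]; exact ⟨fun _ => 0, Set.empty_subset _⟩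
    · obtain ⟨t, ht⟩ := hT.exists_eq_range h
      exact ⟨t, ht.le⟩
  let K : ℕ → IntermediateField ℚ_[ℓ] (PadicAlgCl ℓ) := fun m => adjoin ℚ_[ℓ] (t '' Set.Iio m)
  have hK : Monotone K := fun a b hab => adjoin.mono _ _ _ (Set.image_mono (Set.Iio_subset_Iio hab))
  have hKfin : ∀ m, FiniteDimensional ℚ_[ℓ] (K m) := by
    intro m
    haveI : Finite (t '' Set.Iio m) := ((Set.finite_Iio m).image t).to_subtype
    exact finiteDimensional_adjoin fun x _ => Algebra.IsIntegral.isIntegral x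
  have hmemK : ∀ z, z ∈ (⨆ m, K m : IntermediateField ℚ_[ℓ] (PadicAlgCl ℓ)) → ∃ m, z ∈ K m := by
    intro z hz
    rw [← SetLike.mem_coe, coe_iSup_of_directed hK.directed_le] at hz
    exact Set.mem_iUnion.1 hz
  have hL : ∀ g i j, ρ g i j ∈ (⨆ m, K m : IntermediateField ℚ_[ℓ] (PadicAlgCl ℓ)) := by
    intro g i j
    have h1 : IsClosed {d : ι → ι → PadicAlgCl ℓ | d i j ∈
        ((⨆ m, K m : IntermediateField ℚ_[ℓ] (PadicAlgCl ℓ)) : Set (PadicAlgCl ℓ))} :=
      (isClosed_field _).preimage (continuous_apply_apply i j)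
    have h2 : D ⊆ {d : ι → ι → PadicAlgCl ℓ | d i j ∈
        ((⨆ m, K m : IntermediateField ℚ_[ℓ] (PadicAlgCl ℓ)) : Set (PadicAlgCl ℓ))} := by
      intro d hd
      obtain ⟨m, hm⟩ := ht ⟨d, hd, i, j, rfl⟩
      have h3 : d i j ∈ K (m + 1) := by
        rw [← hm]
        exact subset_adjoin _ _ ⟨m, Nat.lt_succ_self m, rfl⟩
      exact le_iSup K (m + 1) h3
    exact closure_minimal h2 h1 (hfD ⟨g, rfl⟩)
  -- Baire
  have hbaire : ∃ m, (interior {g : G | ∀ i j, ρ g i j ∈ K m}).Nonempty := by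
    refine nonempty_interior_of_iUnion_of_closed (fun m => ?_) ?_
    · have : {g : G | ∀ i j, ρ g i j ∈ K m} =
          ⋂ i, ⋂ j, {g : G | ρ g i j ∈ (K m : Set (PadicAlgCl ℓ))} := by
        ext g
        simp only [Set.mem_setOf_eq, Set.mem_iInter, SetLike.mem_coe]
      rw [this]
      exact isClosed_iInter fun i => isClosed_iInter fun j => (isClosed_field _).preimage (hc i j)
    · rw [Set.eq_univ_iff_forall]
      intro g
      choose m hm using fun i j => hmemK _ (hL g i j)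
      rw [Set.mem_iUnion]
      refine ⟨Finset.univ.sup fun i => Finset.univ.sup (m i), fun i j => ?_⟩
      refine hK ?_ (hm i j)
      exact (Finset.le_sup (f := m i) (Finset.mem_univ j)).trans
        (Finset.le_sup (f := fun i => Finset.univ.sup (m i)) (Finset.mem_univ i))
  obtain ⟨m, hm⟩ := hbaire
  obtain ⟨s, hs⟩ := compact_covered_by_mul_left_translates (isCompact_univ (X := G)) hm
  choose m' hm' using fun (g : G) i j => hmemK _ (hL g⁻¹ i j)
  set M : ℕ := max m (s.sup fun g => Finset.univ.sup fun i => Finset.univ.sup (m' g i)) with hM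
  refine ⟨K M, hKfin M, fun x => ?_⟩
  have hx := hs (Set.mem_univ x)
  simp only [Set.mem_iUnion, Set.mem_preimage, Set.mem_setOf_eq] at hx
  obtain ⟨g, hg, hgx⟩ := hx
  have h1 : ∀ i j, ρ g⁻¹ i j ∈ K M := by
    intro i j
    refine hK ?_ (hm' g i j)
    refine le_trans ?_ (le_max_right _ _)
    refine le_trans ?_ (Finset.le_sup (f := fun g => Finset.univ.sup fun i => Finset.univ.sup (m' g i)) hg)
    exact (Finset.le_sup (f := m' g i) (Finset.mem_univ j)).trans
      (Finset.le_sup (f := fun i => Finset.univ.sup (m' g i)) (Finset.mem_univ i))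
  have h2 : ∀ i j, ρ (g * x) i j ∈ K M := fun i j =>
    hK (le_max_left _ _) (hgx i j)
  have h3 : ρ x = ρ g⁻¹ * ρ (g * x) := by
    rw [← map_mul, inv_mul_cancel_left]
  rw [h3]
  intro i j
  rw [Matrix.mul_apply]
  exact sum_mem fun k _ => mul_mem (h1 i k) (h2 k j)

variable {K : Type} [Field K] [NumberField K] {n : ℕ}

theorem fin2_of_cont {ρ : GK K →* Matrix (Fin n) (Fin n) (PadicAlgCl ℓ)} (hρ : ∀ i j, Continuous fun g => ρ g i j) :
    Fin2 fun g => ρ g := fin_entries ρ hρ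

/-- the extension given by a cocycle -/
noncomputable def extM {G : Type} [Group G] (ρ : G →* Matrix (Fin n) (Fin n) (PadicAlgCl ℓ))
    (c : G → Fin n → PadicAlgCl ℓ) (hc : ∀ g h, c (g * h) = c g + ρ g *ᵥ c h) :
    G →* Matrix (Fin n ⊕ Unit) (Fin n ⊕ Unit) (PadicAlgCl ℓ) where
  toFun g := Matrix.fromBlocks (ρ g) (Matrix.of fun i _ => c g i) 0 1
  map_one' := by
    have h1 : c 1 = 0 := by
      have h2 := hc 1 1
      rw [mul_one, map_one, Matrix.one_mulVec] at h2
      exact left_eq_add.1 h2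
    rw [h1, map_one]
    have h3 : (Matrix.of fun (i : Fin n) (_ : Unit) => (0 : Fin n → PadicAlgCl ℓ) i) = 0 := rfl
    rw [h3, Matrix.fromBlocks_one]
  map_mul' g h := by
    rw [Matrix.fromBlocks_multiply]
    have h1 : (Matrix.of fun (i : Fin n) (_ : Unit) => c (g * h) i) =
        ρ g * (Matrix.of fun (i : Fin n) (_ : Unit) => c h i) +
          (Matrix.of fun (i : Fin n) (_ : Unit) => c g i) * (1 : Matrix Unit Unit (PadicAlgCl ℓ)) := by
      rw [hc, Matrix.mul_one]
      ext i j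
      rw [Matrix.add_apply, Matrix.mul_apply]
      show c g i + (ρ g *ᵥ c h) i = _
      rw [add_comm]
      rfl
    rw [h1, map_mul]
    congr 1
    · rw [Matrix.mul_zero, add_zero]
    · rw [Matrix.zero_mul, Matrix.one_mul, add_zero]
    · rw [Matrix.zero_mul, Matrix.one_mul, zero_add]

theorem fin1_of_coc {ρ : GK K →* Matrix (Fin n) (Fin n) (PadicAlgCl ℓ)} (hρ : ∀ i j, Continuous fun g => ρ g i j)
    {c : GK K → Fin n → PadicAlgCl ℓ} (hc : Continuous c) (hc2 : ∀ g h, c (g * h) = c g + ρ g *ᵥ c h) :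
    Fin1 c := by
  obtain ⟨E, hE, h⟩ := fin_entries (extM ρ c hc2) (fun i j => by
    rcases i with i | i <;> rcases j with j | j
    · exact hρ i j
    · exact (continuous_apply i).comp hc
    · exact continuous_const
    · exact continuous_const)
  exact ⟨E, hE, fun g i => h g (Sum.inl i) (Sum.inr ())⟩

/-- a representation which is continuous and unramified outside `S` -/
theorem gd_of_cont {S : Set (HeightOneSpectrum (𝓞 K))} {ρ : GK K →* GL (Fin n) (PadicAlgCl ℓ)} (h1 : Continuous ρ)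
    (h2 : ∀ v ∉ S, ∀ σ, IsInert v σ → ρ σ = 1) : Gd S ρ :=
  ⟨h1, fin2_of_cont (mt_cont h1), h2⟩

end Pool.Agent.H499.SM
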