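import Pool.Agent.H499.SM.Crd

/-! Bounds for vectors which are nearly invariant. -/

set_option autoImplicit false
set_option linter.all false

namespace Pool.Agent.H499.SM

open Matrix Filter Topology Module

theorem compl_bound {E : Type} [NontriviallyNormedField E] [ProperSpace E] {G : Type} [Group G]
    {n : ℕ} (ρ : G →* Matrix (Fin n) (Fin n) E) (D : Set G) :
    ∃ W : Submodule E (Fin n → E), IsCompl (invM ρ D) W ∧ ∃ C : ℝ, 0 < C ∧ ∀ w ∈ W, ∀ t : ℝ, 0 ≤ t →
      (∀ d ∈ D, ‖ρ d *ᵥ w - w‖ ≤ t) → ‖w‖ ≤ C * t := by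
  obtain ⟨W, hW⟩ := exists_isCompl (invM ρ D)
  refine ⟨W, hW, ?_⟩
  by_contra hcon
  push Not at hcon
  choose w hw t ht hwt hwn using fun m : ℕ => hcon ((m : ℝ) + 1) (by positivity)
  obtain ⟨c, hc⟩ := NormedField.exists_one_lt_norm E
  have hw0 : ∀ m, w m ≠ 0 := by
    intro m h
    have := hwn m
    rw [h, norm_zero] at this
    exact absurd (this.trans_le le_rfl) (not_lt.2 (mul_nonneg (by positivity) (ht m)))
  choose d hd0 hd1 hd2 hd3 using fun m => rescale_to_shell hc one_pos (hw0 m)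
  set 𝓤 : Ultrafilter ℕ := hyperfilter ℕ with h𝓤
  have hle : (𝓤 : Filter ℕ) ≤ atTop := Nat.hyperfilter_le_atTop
  have hcomp := isCompact_closedBall (0 : Fin n → E) 1
  obtain ⟨y, hy, hlim⟩ := hcomp.ultrafilter_le_nhds (𝓤.map fun m => d m • w m) (by
    rw [Ultrafilter.coe_map, le_principal_iff]
    refine Filter.mem_map.2 (Filter.univ_mem' fun m => ?_)
    rw [Set.mem_preimage, mem_closedBall_zero_iff]
    exact (hd1 m).le)
  have hlim' : Tendsto (fun m => d m • w m) 𝓤 (𝓝 y) := hlim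
  have hyW : y ∈ W := by
    have hcl : IsClosed (W : Set (Fin n → E)) := Submodule.closed_of_finiteDimensional W
    exact hcl.mem_of_tendsto hlim' (Filter.Eventually.of_forall fun m => W.smul_mem _ (hw m))
  have hyn : 1 / ‖c‖ ≤ ‖y‖ := ge_of_tendsto hlim'.norm (Filter.Eventually.of_forall fun m => hd2 m)
  have hyI : y ∈ invM ρ D := by
    intro g hg
    have h1 : Tendsto (fun m => ρ g *ᵥ (d m • w m) - d m • w m) 𝓤 (𝓝 0) := by
      refine squeeze_zero_norm (a := fun m : ℕ => 1 / ((m : ℝ) + 1)) (fun m => ?_)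
        (tendsto_one_div_add_atTop_nhds_zero_nat.mono_left hle)
      rw [Matrix.mulVec_smul, ← smul_sub, norm_smul]
      have h2 := hwt m g hg
      have h3 : ‖d m‖ * ‖w m‖ < 1 := by
        rw [← norm_smul]
        exact hd1 m
      have h4 : ((m : ℝ) + 1) * t m < ‖w m‖ := hwn m
      have h5 : 0 < ‖d m‖ := norm_pos_iff.2 (hd0 m)
      rw [le_div_iff₀ (by positivity)]
      calc ‖d m‖ * ‖ρ g *ᵥ w m - w m‖ * ((m : ℝ) + 1) ≤ ‖d m‖ * t m * ((m : ℝ) + 1) := by
            refine mul_le_mul_of_nonneg_right (mul_le_mul_of_nonneg_left h2 h5.le) (by positivity)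
        _ = ‖d m‖ * (((m : ℝ) + 1) * t m) := by ring
        _ ≤ ‖d m‖ * ‖w m‖ := mul_le_mul_of_nonneg_left h4.le h5.le
        _ ≤ 1 := h3.le
    have h2 : Tendsto (fun m => ρ g *ᵥ (d m • w m) - d m • w m) 𝓤 (𝓝 (ρ g *ᵥ y - y)) := by
      have hcont : Continuous fun v : Fin n → E => ρ g *ᵥ v := continuous_const.matrix_mulVec continuous_id
      exact ((hcont.tendsto y).comp hlim').sub hlim'
    exact sub_eq_zero.1 (tendsto_nhds_unique h2 h1)
  have h0 : y = 0 := by
    have := hW.disjoint.le_bot ⟨hyI, hyW⟩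
    exact this
  rw [h0, norm_zero] at hyn
  have : 0 < 1 / ‖c‖ := by positivity
  linarith

theorem near_mulVec {E L : Type} [NormedField E] [IsUltrametricDist E] [NormedField L] [NormedAlgebra E L]
    [IsUltrametricDist L] {n : ℕ} {M : Matrix (Fin n) (Fin n) E} {M' : Matrix (Fin n) (Fin n) L} {ε : ℝ}
    (hε : 0 ≤ ε) (h : ∀ i j, ‖M' i j - algebraMap E L (M i j)‖ ≤ ε) (x : Fin n → L) :
    ‖M' *ᵥ x - M.map (algebraMap E L) *ᵥ x‖ ≤ ε * ‖x‖ := by
  rw [← Matrix.sub_mulVec]
  exact mulVec_le hε (fun i j => h i j) x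

/-- coboundaries on `D` of bounded vectors -/
theorem inv_part {E L : Type} [NontriviallyNormedField E] [ProperSpace E] [IsUltrametricDist E] [NormedField L]
    [NormedAlgebra E L] [FiniteDimensional E L] [IsUltrametricDist L] {G : Type} [Group G] {n : ℕ}
    {ρ : G →* Matrix (Fin n) (Fin n) E} {D : Set G} {W : Submodule E (Fin n → E)} (hW : IsCompl (invM ρ D) W)
    {C : ℝ} (hC0 : 0 < C) (hC : ∀ w ∈ W, ∀ t : ℝ, 0 ≤ t → (∀ d ∈ D, ‖ρ d *ᵥ w - w‖ ≤ t) → ‖w‖ ≤ C * t)
    {r : ℕ} {q : ℝ} (hq : 0 < q) (K : Crd E L r q) {ρ' : G →* Matrix (Fin n) (Fin n) L} {ε : ℝ} (hε0 : 0 ≤ ε)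
    (hε : C * q * ε < 1) (hnear : ∀ g i j, ‖ρ' g i j - algebraMap E L (ρ g i j)‖ ≤ ε)
    (hdim : finrank E (invM ρ D) ≤ finrank L (invM ρ' D)) (x : Fin n → L) :
    ∃ w : Fin n → L, (∀ d ∈ D, ρ' d *ᵥ w - w = ρ' d *ᵥ x - x) ∧
      ∀ t, 0 ≤ t → (∀ d ∈ D, ‖ρ' d *ᵥ x - x‖ ≤ t) → ‖w‖ ≤ C * q * t := by
  set WL : Submodule L (Fin n → L) := Submodule.span L (up L '' (W : Set (Fin n → E))) with hWL
  have hco : ∀ v ∈ WL, ∀ j, K.co j v ∈ W := by
    intro v hv
    induction hv using Submodule.span_induction with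
    | mem v hv =>
      obtain ⟨u, hu, rfl⟩ := hv
      intro j
      rw [K.co_up]
      exact W.smul_mem _ hu
    | zero => intro j; rw [map_zero]; exact W.zero_mem
    | add v v' _ _ h1 h2 => intro j; rw [map_add]; exact W.add_mem (h1 j) (h2 j)
    | smul a v _ h1 =>
      intro j
      rw [K.co_smul]
      exact W.sum_mem fun l _ => W.smul_mem _ (h1 l)
  have hbd : ∀ w ∈ WL, ∀ t : ℝ, 0 ≤ t → (∀ d ∈ D, ‖ρ' d *ᵥ w - w‖ ≤ t) → ‖w‖ ≤ C * q * t := by
    intro w hw t ht h
    set T := max t (ε * ‖w‖) with hT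
    have hT0 : 0 ≤ T := ht.trans (le_max_left _ _)
    have h1 : ∀ d ∈ D, ‖(ρ d).map (algebraMap E L) *ᵥ w - w‖ ≤ T := by
      intro d hd
      have e : (ρ d).map (algebraMap E L) *ᵥ w - w = (ρ' d *ᵥ w - w) -
        (ρ' d *ᵥ w - (ρ d).map (algebraMap E L) *ᵥ w) := by abel
      rw [e]
      exact (sub_le_max _ _).trans (max_le_max (h d hd) (near_mulVec hε0 (hnear d) w))
    have h2 : ‖w‖ ≤ C * q * T := by
      refine K.norm_le w (mul_nonneg (mul_nonneg hC0.le hq.le) hT0) fun j => ?_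
      have h3 : ‖K.co j w‖ ≤ C * (q * T) := by
        refine hC _ (hco w hw j) _ (mul_nonneg hq.le hT0) fun d hd => ?_
        rw [← K.co_mulVec, ← map_sub]
        exact (K.norm_co hq.le j _).trans (mul_le_mul_of_nonneg_left (h1 d hd) hq.le)
      calc ‖K.co j w‖ ≤ C * (q * T) := h3
        _ = C * q * T := by ring
    rcases le_total (ε * ‖w‖) t with h3 | h3
    · rwa [hT, max_eq_left h3] at h2
    · rw [hT, max_eq_right h3] at h2
      have h4 : ‖w‖ ≤ 0 := by
        by_contra h5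
        push Not at h5
        have h6 : C * q * (ε * ‖w‖) = (C * q * ε) * ‖w‖ := by ring
        rw [h6] at h2
        nlinarith
      exact h4.trans (mul_nonneg (mul_nonneg hC0.le hq.le) ht)
  have hdisj : Disjoint (invM ρ' D) WL := by
    rw [Submodule.disjoint_def]
    intro v hv hvW
    have h1 := hbd v hvW 0 le_rfl fun d hd => by rw [hv d hd, sub_self, norm_zero]
    rw [mul_zero] at h1
    exact norm_le_zero_iff.1 h1
  have hrank : finrank E W ≤ finrank L WL := by
    set b := Module.finBasis E W with hb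
    have hmem : ∀ i, up L (b i : Fin n → E) ∈ WL := fun i => Submodule.subset_span ⟨_, (b i).2, rfl⟩
    have hli : LinearIndependent L (fun i => (⟨up L (b i : Fin n → E), hmem i⟩ : WL)) := by
      rw [Fintype.linearIndependent_iff]
      intro a ha i
      have h1 : ∑ i, a i • up L (b i : Fin n → E) = 0 := by
        have := congrArg Subtype.val ha
        simpa using this
      have h2 : ∀ j, K.π j (a i) = 0 := by
        intro j
        have h3 : K.co j (∑ i, a i • up L (b i : Fin n → E)) = ∑ i, K.π j (a i) • (b i : Fin n → E) := by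
          rw [map_sum]
          refine Finset.sum_congr rfl fun i _ => ?_
          funext k
          rw [Crd.co_apply, Pi.smul_apply, Pi.smul_apply, up_apply, smul_eq_mul, mul_comm, ← Algebra.smul_def,
            map_smul, smul_eq_mul, smul_eq_mul, mul_comm]
        rw [h1, map_zero] at h3
        have h4 : ∑ i, K.π j (a i) • b i = 0 := by
          apply Subtype.ext
          rw [Submodule.coe_sum, Submodule.coe_zero, h3]
          rfl
        exact (Fintype.linearIndependent_iff.1 b.linearIndependent) _ h4 i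
      rw [← K.sum (a i)]
      exact Finset.sum_eq_zero fun j _ => by rw [h2 j, zero_smul]
    have := hli.fintype_card_le_finrank
    rwa [Fintype.card_fin] at this
  have htop : invM ρ' D ⊔ WL = ⊤ := by
    refine Submodule.eq_top_of_disjoint _ _ ?_ hdisj
    have h1 := Submodule.finrank_add_eq_of_isCompl hW
    rw [Module.finrank_fin_fun] at h1
    rw [Module.finrank_fin_fun]
    omega
  have hx : x ∈ invM ρ' D ⊔ WL := by rw [htop]; exact Submodule.mem_top
  obtain ⟨y, hy, w, hw, rfl⟩ := Submodule.mem_sup.1 hx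
  have e : ∀ d ∈ D, ρ' d *ᵥ (y + w) - (y + w) = ρ' d *ᵥ w - w := by
    intro d hd
    rw [Matrix.mulVec_add, hy d hd]
    abel
  refine ⟨w, fun d hd => (e d hd).symm, fun t ht h => hbd w hw t ht fun d hd => ?_⟩
  rw [← e d hd]
  exact h d hd

end Pool.Agent.H499.SM
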