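import Pool.Agent.H499.SM.Stm

/-!
# Job CONJ: conjugating a representation with near traces
-/

set_option autoImplicit false
set_option linter.unusedSectionVars false

namespace Pool.Agent.H499.SM

open Matrix Filter Topology

namespace CONJpf

section Ultra

variable {L : Type} [NormedField L] [IsUltrametricDist L]

theorem ultra_sum {ι : Type} (s : Finset ι) (f : ι → L) {C : ℝ} (hC : 0 ≤ C)
    (h : ∀ i ∈ s, ‖f i‖ ≤ C) : ‖∑ i ∈ s, f i‖ ≤ C :=
  IsUltrametricDist.norm_sum_le_of_forall_le_of_nonneg hC h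

theorem ultra_add {x y : L} {C : ℝ} (hx : ‖x‖ ≤ C) (hy : ‖y‖ ≤ C) : ‖x + y‖ ≤ C :=
  (IsUltrametricDist.norm_add_le_max x y).trans (max_le hx hy)

theorem ultra_sub {x y : L} {C : ℝ} (hx : ‖x‖ ≤ C) (hy : ‖y‖ ≤ C) : ‖x - y‖ ≤ C := by
  rw [sub_eq_add_neg]
  exact ultra_add hx (by rwa [norm_neg])

/-- coordinates are bounded by the traces -/
theorem coord_bound {n : ℕ} {P : Fin n × Fin n → Matrix (Fin n) (Fin n) L} {η : ℝ}
    (hη : η < 1)
    (hP : ∀ p q : Fin n × Fin n,
      ‖(P p * P q).trace - (if p.2 = q.1 ∧ p.1 = q.2 then 1 else 0)‖ ≤ η)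
    (m : Fin n × Fin n → L) {t : ℝ} (ht : 0 ≤ t)
    (hm : ∀ q, ‖((∑ p, m p • P p) * P q).trace‖ ≤ t) (p : Fin n × Fin n) : ‖m p‖ ≤ t := by
  have : Nonempty (Fin n × Fin n) := ⟨p⟩
  obtain ⟨q, hq⟩ := Finite.exists_max (fun p => ‖m p‖)
  refine (hq p).trans ?_
  have h1 : ((∑ p, m p • P p) * P (q.2, q.1)).trace = m q +
      ∑ p, m p * ((P p * P (q.2, q.1)).trace -
        (if p.2 = (q.2, q.1).1 ∧ p.1 = (q.2, q.1).2 then 1 else 0)) := by
    have h2 : ∑ p, m p * (if p.2 = (q.2, q.1).1 ∧ p.1 = (q.2, q.1).2 then (1 : L) else 0) =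
        m q := by
      rw [Finset.sum_eq_single q]
      · simp
      · intro b _ hb
        rw [if_neg, mul_zero]
        rintro ⟨h3, h4⟩
        exact hb (Prod.ext h4 h3)
      · intro h
        exact absurd (Finset.mem_univ _) h
    simp only [mul_sub, Finset.sum_sub_distrib]
    rw [h2, Finset.sum_mul, Matrix.trace_sum]
    simp only [Matrix.smul_mul, Matrix.trace_smul, smul_eq_mul]
    ring
  have hη0 : 0 ≤ η := (norm_nonneg _).trans (hP p q)
  have h2 : ‖∑ p, m p * ((P p * P (q.2, q.1)).trace -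
        (if p.2 = (q.2, q.1).1 ∧ p.1 = (q.2, q.1).2 then 1 else 0))‖ ≤ ‖m q‖ * η := by
    apply ultra_sum _ _ (by positivity)
    intro i _
    rw [norm_mul]
    exact mul_le_mul (hq i) (hP i _) (norm_nonneg _) (norm_nonneg _)
  by_contra hcon
  push Not at hcon
  have h3 : ‖m q‖ ≤ max t (‖m q‖ * η) := by
    have e : m q = ((∑ p, m p • P p) * P (q.2, q.1)).trace -
      ∑ p, m p * ((P p * P (q.2, q.1)).trace -
        (if p.2 = (q.2, q.1).1 ∧ p.1 = (q.2, q.1).2 then 1 else 0)) := by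
      rw [h1]; ring
    calc ‖m q‖ = ‖((∑ p, m p • P p) * P (q.2, q.1)).trace -
      ∑ p, m p * ((P p * P (q.2, q.1)).trace -
        (if p.2 = (q.2, q.1).1 ∧ p.1 = (q.2, q.1).2 then 1 else 0))‖ := by rw [← e]
      _ ≤ _ := ultra_sub ((hm _).trans (le_max_left _ _)) (h2.trans (le_max_right _ _))
  rcases le_max_iff.1 h3 with h | h
  · linarith
  · nlinarith

theorem trace_bound {n : ℕ} {P : Fin n × Fin n → Matrix (Fin n) (Fin n) L} {η : ℝ}
    (hη : η < 1)
    (hP : ∀ p q : Fin n × Fin n,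
      ‖(P p * P q).trace - (if p.2 = q.1 ∧ p.1 = q.2 then 1 else 0)‖ ≤ η)
    {c : ℝ} (hc : ∀ p a b, ‖P p a b‖ ≤ c) (M : Matrix (Fin n) (Fin n) L) {t : ℝ} (ht : 0 ≤ t)
    (hM : ∀ q, ‖(M * P q).trace‖ ≤ t) (a b : Fin n) : ‖M a b‖ ≤ t * c := by
  have hli : LinearIndependent L P := by
    rw [Fintype.linearIndependent_iff]
    intro m hm p
    have h1 := coord_bound hη hP m (t := 0) le_rfl (fun q => by rw [hm]; simp) p
    exact norm_le_zero_iff.1 h1
  have : Nonempty (Fin n × Fin n) := ⟨(a, b)⟩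
  have hspan : Submodule.span L (Set.range P) = ⊤ :=
    hli.span_eq_top_of_card_eq_finrank (by simp [Module.finrank_matrix])
  have hmem : M ∈ Submodule.span L (Set.range P) := by rw [hspan]; exact Submodule.mem_top
  obtain ⟨m, hm⟩ := (Submodule.mem_span_range_iff_exists_fun L).1 hmem
  have hb := coord_bound hη hP m ht (fun q => by rw [hm]; exact hM q)
  have hc0 : 0 ≤ c := (norm_nonneg _).trans (hc (a, b) a b)
  rw [← hm, Matrix.sum_apply]
  apply ultra_sum _ _ (by positivity)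
  intro p _
  rw [Matrix.smul_apply, smul_eq_mul, norm_mul]
  exact mul_le_mul (hb p) (hc p a b) (norm_nonneg _) ht

end Ultra

section Bd

variable {E G : Type} [NormedField E] [IsUltrametricDist E] [Group G]

/-- the coefficients of a formal combination are bounded by `c` -/
def Bd (c : ℝ) (x : MonoidAlgebra E G) : Prop := ∀ g, ‖x.coeff g‖ ≤ c

theorem Bd.mul {c d : ℝ} (hc : 0 ≤ c) (hd : 0 ≤ d) {x y : MonoidAlgebra E G} (hx : Bd c x)
    (hy : Bd d y) : Bd (c * d) (x * y) := by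
  classical
  intro g
  rw [MonoidAlgebra.coeff_mul, Finsupp.sum]
  apply ultra_sum _ _ (by positivity)
  intro g1 _
  rw [Finsupp.sum]
  apply ultra_sum _ _ (by positivity)
  intro g2 _
  split_ifs
  · rw [norm_mul]
    exact mul_le_mul (hx g1) (hy g2) (norm_nonneg _) hc
  · rw [norm_zero]
    positivity

theorem Bd.sub {c : ℝ} {x y : MonoidAlgebra E G} (hx : Bd c x) (hy : Bd c y) :
    Bd c (x - y) := by
  intro g
  rw [MonoidAlgebra.coeff_sub, Finsupp.sub_apply]
  exact ultra_sub (hx g) (hy g)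

theorem Bd.sum {c : ℝ} (hc : 0 ≤ c) {ι : Type} (s : Finset ι) (f : ι → MonoidAlgebra E G)
    (h : ∀ i ∈ s, Bd c (f i)) : Bd c (∑ i ∈ s, f i) := by
  intro g
  rw [MonoidAlgebra.coeff_sum, Finsupp.finsetSum_apply]
  exact ultra_sum _ _ hc (fun i hi => h i hi g)

theorem Bd.smul {c : ℝ} {x : MonoidAlgebra E G} (hx : Bd c x) {a : E} (ha : ‖a‖ ≤ 1) :
    Bd c (a • x) := by
  intro g
  rw [MonoidAlgebra.coeff_smul, Finsupp.smul_apply, smul_eq_mul, norm_mul]
  calc ‖a‖ * ‖x.coeff g‖ ≤ 1 * ‖x.coeff g‖ := by gcongr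
    _ ≤ c := by rw [one_mul]; exact hx g

theorem Bd.single_mul {c : ℝ} (hc : 0 ≤ c) {x : MonoidAlgebra E G} (hx : Bd c x) (g : G) :
    Bd c (MonoidAlgebra.single g 1 * x) := by
  have h1 : Bd 1 (MonoidAlgebra.single g (1 : E)) := by
    classical
    intro h
    rw [MonoidAlgebra.coeff_single, Finsupp.single_apply]
    split_ifs
    · rw [norm_one]
    · rw [norm_zero]; exact zero_le_one
  have h2 := Bd.mul zero_le_one hc h1 hx
  rwa [one_mul] at h2

theorem Bd.zero {c : ℝ} (hc : 0 ≤ c) : Bd c (0 : MonoidAlgebra E G) := by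
  intro g
  simpa using hc

theorem Bd.mono {c d : ℝ} (h : c ≤ d) {x : MonoidAlgebra E G} (hx : Bd c x) : Bd d x :=
  fun g => (hx g).trans h

theorem exists_Bd (x : MonoidAlgebra E G) : ∃ c : ℝ, 0 ≤ c ∧ Bd c x := by
  refine ⟨∑ g ∈ x.coeff.support, ‖x.coeff g‖, Finset.sum_nonneg fun _ _ => norm_nonneg _, ?_⟩
  intro g
  by_cases hg : g ∈ x.coeff.support
  · exact Finset.single_le_sum (f := fun g => ‖x.coeff g‖) (fun _ _ => norm_nonneg _) hg
  · rw [Finsupp.notMem_support_iff.1 hg, norm_zero]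
    exact Finset.sum_nonneg fun _ _ => norm_nonneg _

variable {L : Type} [NormedField L] [NormedAlgebra E L] [IsUltrametricDist L] {n : ℕ}

omit [IsUltrametricDist E] in
theorem lift_bound (ρ' : G →* Matrix (Fin n) (Fin n) L) {B : ℝ}
    (hB : ∀ g i j, ‖ρ' g i j‖ ≤ B) {x : MonoidAlgebra E G} {c : ℝ} (hc : 0 ≤ c) (hx : Bd c x)
    (i j : Fin n) : ‖MonoidAlgebra.lift E (Matrix (Fin n) (Fin n) L) G ρ' x i j‖ ≤ c * B := by
  have hB0 : 0 ≤ B := (norm_nonneg _).trans (hB 1 i j)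
  rw [MonoidAlgebra.lift_apply, Finsupp.sum, Matrix.sum_apply]
  apply ultra_sum _ _ (by positivity)
  intro g _
  rw [Matrix.smul_apply, norm_smul]
  exact mul_le_mul (hx g) (hB g i j) (norm_nonneg _) hc

omit [IsUltrametricDist E] in
theorem lift_trace (ρ : G →* Matrix (Fin n) (Fin n) E) (ρ' : G →* Matrix (Fin n) (Fin n) L)
    {ε : ℝ} (htr : ∀ g, ‖(ρ' g).trace - algebraMap E L (ρ g).trace‖ ≤ ε)
    {x : MonoidAlgebra E G} {c : ℝ} (hc : 0 ≤ c) (hx : Bd c x) :
    ‖(MonoidAlgebra.lift E (Matrix (Fin n) (Fin n) L) G ρ' x).trace -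
      algebraMap E L (MonoidAlgebra.lift E (Matrix (Fin n) (Fin n) E) G ρ x).trace‖ ≤ c * ε := by
  have hε : 0 ≤ ε := (norm_nonneg _).trans (htr 1)
  rw [MonoidAlgebra.lift_apply, MonoidAlgebra.lift_apply, Finsupp.sum, Finsupp.sum,
    Matrix.trace_sum, Matrix.trace_sum, map_sum, ← Finset.sum_sub_distrib]
  apply ultra_sum _ _ (by positivity)
  intro g _
  rw [Matrix.trace_smul, Matrix.trace_smul, smul_eq_mul, map_mul, Algebra.smul_def, ← mul_sub,
    norm_mul, norm_algebraMap']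
  exact mul_le_mul (hx g) (htr g) (norm_nonneg _) hc

end Bd

end CONJpf

open CONJpf

theorem t_CONJ : S_CONJ := by
  intro E _ _ G _ n hn ρ hρ hspan B
  set R := MonoidAlgebra.lift E (Matrix (Fin n) (Fin n) E) G ρ with hR
  have hsurj : ∀ M : Matrix (Fin n) (Fin n) E, ∃ x : MonoidAlgebra E G, R x = M := by
    intro M
    have h1 : Submodule.span E (Set.range fun g => ρ g) ≤ LinearMap.range R.toLinearMap := by
      rw [Submodule.span_le]
      rintro _ ⟨g, rfl⟩
      refine ⟨MonoidAlgebra.single g 1, ?_⟩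
      show R (MonoidAlgebra.single g 1) = ρ g
      rw [hR, MonoidAlgebra.lift_single, one_smul]
    rw [hspan] at h1
    obtain ⟨x, hx⟩ := h1 (Submodule.mem_top : M ∈ ⊤)
    exact ⟨x, hx⟩
  choose e0 he0 using hsurj
  set e : Fin n → Fin n → MonoidAlgebra E G := fun i j => e0 (Matrix.single i j 1) with he
  have heR : ∀ i j, R (e i j) = Matrix.single i j 1 := fun i j => he0 _
  obtain ⟨C₁, hC₁, hBd⟩ : ∃ C₁ : ℝ, 1 ≤ C₁ ∧ ∀ i j, Bd C₁ (e i j) := by
    choose c hc0 hc using fun p : Fin n × Fin n => exists_Bd (e p.1 p.2)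
    refine ⟨1 + ∑ p, c p, ?_, fun i j => (hc (i, j)).mono ?_⟩
    · have : 0 ≤ ∑ p, c p := Finset.sum_nonneg fun p _ => hc0 p
      linarith
    · have := Finset.single_le_sum (f := c) (fun p _ => hc0 p) (Finset.mem_univ (i, j))
      linarith
  set B' : ℝ := max B 1 with hB'
  have hB1 : 1 ≤ B' := le_max_right _ _
  have hC₁0 : 0 < C₁ := by linarith
  have hB0 : 0 < B' := by linarith
  refine ⟨C₁ ^ 4 * B' ^ 2, by positivity, ?_⟩
  intro L _ _ _ ρ' hρ'B ε hCε htr
  set R' := MonoidAlgebra.lift E (Matrix (Fin n) (Fin n) L) G ρ' with hR'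
  have hε : 0 ≤ ε := (norm_nonneg _).trans (htr 1)
  have hρ'B' : ∀ g i j, ‖ρ' g i j‖ ≤ B' := fun g i j => (hρ'B g i j).trans (le_max_left _ _)
  -- smallness
  have hC1p : ∀ k : ℕ, 1 ≤ C₁ ^ k := fun k => one_le_pow₀ hC₁
  have hB2 : B' ≤ B' ^ 2 := by nlinarith
  have hs1 : C₁ * ε < 1 := by
    refine lt_of_le_of_lt (mul_le_mul_of_nonneg_right ?_ hε) hCε
    calc C₁ = C₁ * 1 * 1 := by ring
      _ ≤ C₁ * C₁ ^ 3 * B' ^ 2 := by
          gcongr
          · exact hC1p 3
          · exact one_le_pow₀ hB1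
      _ = C₁ ^ 4 * B' ^ 2 := by ring
  have hs2 : C₁ * C₁ * ε < 1 := by
    refine lt_of_le_of_lt (mul_le_mul_of_nonneg_right ?_ hε) hCε
    calc C₁ * C₁ = C₁ * C₁ * 1 * 1 := by ring
      _ ≤ C₁ * C₁ * C₁ ^ 2 * B' ^ 2 := by
          gcongr
          · exact hC1p 2
          · exact one_le_pow₀ hB1
      _ = C₁ ^ 4 * B' ^ 2 := by ring
  have hs3 : C₁ ^ 4 * B' * ε < 1 := by
    refine lt_of_le_of_lt (mul_le_mul_of_nonneg_right ?_ hε) hCε
    gcongr
  have hC0 : 0 ≤ C₁ := hC₁0.le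
  -- the matrix units
  have hPb : ∀ i j a b, ‖R' (e i j) a b‖ ≤ C₁ * B' := fun i j a b =>
    lift_bound ρ' hρ'B' hC0 (hBd i j) a b
  have hP : ∀ p q : Fin n × Fin n, ‖(R' (e p.1 p.2) * R' (e q.1 q.2)).trace -
      (if p.2 = q.1 ∧ p.1 = q.2 then 1 else 0)‖ ≤ C₁ * C₁ * ε := by
    intro p q
    have h1 := lift_trace ρ ρ' htr (x := e p.1 p.2 * e q.1 q.2) (c := C₁ * C₁) (by positivity)
      (Bd.mul hC0 hC0 (hBd _ _) (hBd _ _))
    rw [← hR, ← hR', map_mul, map_mul, heR, heR] at h1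
    have h2 : (Matrix.single p.1 p.2 (1 : E) * Matrix.single q.1 q.2 1).trace =
        if p.2 = q.1 ∧ p.1 = q.2 then 1 else 0 := by
      by_cases h3 : p.2 = q.1
      · rw [h3, Matrix.single_mul_single_same, mul_one]
        by_cases h4 : p.1 = q.2
        · rw [h4, Matrix.trace_single_eq_same, if_pos ⟨rfl, rfl⟩]
        · rw [Matrix.trace_single_eq_of_ne _ _ _ h4, if_neg (fun h => h4 h.2)]
      · rw [Matrix.single_mul_single_of_ne _ _ _ _ h3, Matrix.trace_zero,
          if_neg (fun h => h3 h.1)]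
    rw [h2] at h1
    split_ifs at h1 ⊢ with h5
    · rwa [map_one] at h1
    · rwa [map_zero] at h1
  -- the key estimate
  have star : ∀ (x : MonoidAlgebra E G) (c : ℝ), 0 ≤ c → Bd c x → R x = 0 → ∀ a b,
      ‖R' x a b‖ ≤ (c * C₁ * ε) * (C₁ * B') := by
    intro x c hc hx hx0 a b
    refine trace_bound (P := fun p => R' (e p.1 p.2)) hs2 hP (fun p a b => hPb _ _ a b) (R' x)
      (by positivity) (fun q => ?_) a b
    have h1 := lift_trace ρ ρ' htr (x := x * e q.1 q.2) (c := c * C₁) (by positivity)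
      (Bd.mul hc hC0 hx (hBd _ _))
    rw [← hR, ← hR', map_mul, map_mul, hx0, zero_mul, Matrix.trace_zero, map_zero, sub_zero] at h1
    exact h1
  have st1 : ∀ (g : G) (i j a b : Fin n), ‖(ρ' g * R' (e i j)) a b -
      ∑ k, algebraMap E L (ρ g k i) * R' (e k j) a b‖ ≤ (C₁ * C₁ * ε) * (C₁ * B') := by
    intro g i j a b
    have hx : Bd C₁ (MonoidAlgebra.single g 1 * e i j - ∑ k, (ρ g k i) • e k j) :=
      Bd.sub (Bd.single_mul hC0 (hBd i j) g)
        (Bd.sum hC0 _ _ fun k _ => Bd.smul (hBd k j) (hρ g k i))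
    have hx0 : R (MonoidAlgebra.single g 1 * e i j - ∑ k, (ρ g k i) • e k j) = 0 := by
      rw [map_sub, map_mul, map_sum]
      simp only [map_smul, heR]
      rw [hR, MonoidAlgebra.lift_single, one_smul, sub_eq_zero]
      ext a b
      rw [Matrix.sum_apply]
      simp only [Matrix.smul_apply, smul_eq_mul, Matrix.single_apply]
      by_cases hb : j = b
      · subst hb
        rw [Matrix.mul_single_apply_same, mul_one, Finset.sum_eq_single a]
        · simp
        · intro k _ hk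
          simp [hk]
        · intro h; exact absurd (Finset.mem_univ _) h
      · rw [Matrix.mul_single_apply_of_ne _ _ _ _ _ (Ne.symm hb)]
        symm
        apply Finset.sum_eq_zero
        intro k _
        simp [hb]
    have h1 := star _ _ hC0 hx hx0 a b
    rw [map_sub, map_mul, map_sum] at h1
    simp only [map_smul] at h1
    rw [hR', MonoidAlgebra.lift_single, one_smul, ← hR', Matrix.sub_apply, Matrix.sum_apply] at h1
    simp only [Matrix.smul_apply, Algebra.smul_def] at h1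
    exact h1
  set o : Fin n := ⟨0, hn⟩ with ho
  have st2 : ∀ (k i a b : Fin n), ‖(R' (e o k) * R' (e i o)) a b -
      (if k = i then R' (e o o) a b else 0)‖ ≤ C₁ ^ 4 * B' * ε := by
    intro k i a b
    have hx : Bd (C₁ * C₁) (e o k * e i o - (if k = i then e o o else 0)) := by
      refine Bd.sub (Bd.mul hC0 hC0 (hBd _ _) (hBd _ _)) ?_
      split_ifs
      · exact (hBd o o).mono (by nlinarith)
      · exact Bd.zero (by positivity)
    have hx0 : R (e o k * e i o - (if k = i then e o o else 0)) = 0 := by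
      rw [map_sub, map_mul, heR, heR]
      split_ifs with h
      · subst h
        rw [heR, Matrix.single_mul_single_same, mul_one, sub_self]
      · rw [map_zero, Matrix.single_mul_single_of_ne _ _ _ _ h, sub_zero]
    have h1 := star _ _ (by positivity) hx hx0 a b
    rw [map_sub, map_mul, Matrix.sub_apply] at h1
    have e1 : R' (if k = i then e o o else 0) a b = if k = i then R' (e o o) a b else 0 := by
      split_ifs
      · rfl
      · rw [map_zero, Matrix.zero_apply]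
    rw [e1] at h1
    refine h1.trans (le_of_eq ?_)
    ring
  -- the vector
  obtain ⟨v, hv⟩ : ∃ v, 1 ≤ ‖R' (e o o) v v‖ := by
    have : Nonempty (Fin n) := ⟨o⟩
    obtain ⟨v, hv⟩ := Finite.exists_max (fun v => ‖R' (e o o) v v‖)
    refine ⟨v, ?_⟩
    have h1 : ‖(R' (e o o)).trace‖ ≤ ‖R' (e o o) v v‖ := by
      unfold Matrix.trace
      exact ultra_sum _ _ (norm_nonneg _) (fun i _ => hv i)
    have h2 := lift_trace ρ ρ' htr (x := e o o) hC0 (hBd o o)
    rw [← hR, ← hR', heR, Matrix.trace_single_eq_same, map_one] at h2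
    by_contra hcon
    push Not at hcon
    have h3 : ‖(1 : L)‖ ≤ max ‖(R' (e o o)).trace‖ ‖(R' (e o o)).trace - 1‖ := by
      have e3 : (1 : L) = (R' (e o o)).trace - ((R' (e o o)).trace - 1) := by ring
      calc ‖(1 : L)‖ = ‖(R' (e o o)).trace - ((R' (e o o)).trace - 1)‖ := by rw [← e3]
        _ ≤ _ := ultra_sub (le_max_left _ _) (le_max_right _ _)
    rw [norm_one] at h3
    rcases le_max_iff.1 h3 with h | h
    · linarith
    · linarith
  set X0 : Matrix (Fin n) (Fin n) L := Matrix.of fun a i => R' (e i o) a v with hX0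
  have lower : ∀ (u : Fin n → L) (t : ℝ), 0 ≤ t → (∀ a, ‖(X0 *ᵥ u) a‖ ≤ t) → ∀ k,
      ‖u k‖ ≤ C₁ * B' * t := by
    intro u t ht hu k0
    have : Nonempty (Fin n) := ⟨o⟩
    obtain ⟨k, hk⟩ := Finite.exists_max (fun k => ‖u k‖)
    refine (hk k0).trans ?_
    have h1 : (R' (e o k) *ᵥ (X0 *ᵥ u)) v = u k * R' (e o o) v v +
        ∑ i, u i * ((R' (e o k) * R' (e i o)) v v - (if k = i then R' (e o o) v v else 0)) := by
      have h2 : ∑ i, u i * (if k = i then R' (e o o) v v else 0) = u k * R' (e o o) v v := by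
        rw [Finset.sum_eq_single k]
        · rw [if_pos rfl]
        · intro i _ hi
          rw [if_neg (Ne.symm hi), mul_zero]
        · intro h; exact absurd (Finset.mem_univ _) h
      simp only [mul_sub, Finset.sum_sub_distrib]
      rw [h2, Matrix.mulVec_mulVec, Matrix.mulVec, dotProduct]
      have h3 : ∀ i, (R' (e o k) * X0) v i = (R' (e o k) * R' (e i o)) v v := by
        intro i
        rw [Matrix.mul_apply, Matrix.mul_apply]
        rfl
      simp only [h3]
      have h4 : ∑ i, (R' (e o k) * R' (e i o)) v v * u i =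
          ∑ i, u i * (R' (e o k) * R' (e i o)) v v :=
        Finset.sum_congr rfl fun i _ => mul_comm _ _
      rw [h4]
      ring
    have h2 : ‖(R' (e o k) *ᵥ (X0 *ᵥ u)) v‖ ≤ C₁ * B' * t := by
      rw [Matrix.mulVec, dotProduct]
      apply ultra_sum _ _ (by positivity)
      intro a _
      rw [norm_mul]
      exact mul_le_mul (hPb _ _ _ _) (hu a) (norm_nonneg _) (by positivity)
    have h3 : ‖∑ i, u i * ((R' (e o k) * R' (e i o)) v v -
        (if k = i then R' (e o o) v v else 0))‖ ≤ ‖u k‖ * (C₁ ^ 4 * B' * ε) := by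
      apply ultra_sum _ _ (by positivity)
      intro i _
      rw [norm_mul]
      exact mul_le_mul (hk i) (st2 k i v v) (norm_nonneg _) (norm_nonneg _)
    have h4 : ‖u k‖ ≤ max (C₁ * B' * t) (‖u k‖ * (C₁ ^ 4 * B' * ε)) := by
      calc ‖u k‖ = ‖u k‖ * 1 := (mul_one _).symm
        _ ≤ ‖u k‖ * ‖R' (e o o) v v‖ := by gcongr
        _ = ‖u k * R' (e o o) v v‖ := (norm_mul _ _).symm
        _ = ‖(R' (e o k) *ᵥ (X0 *ᵥ u)) v - ∑ i, u i * ((R' (e o k) * R' (e i o)) v v -
              (if k = i then R' (e o o) v v else 0))‖ := by rw [h1]; ring_nf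
        _ ≤ _ := ultra_sub (h2.trans (le_max_left _ _)) (h3.trans (le_max_right _ _))
    rcases le_max_iff.1 h4 with h | h
    · exact h
    · have h0 : ‖u k‖ = 0 := by
        by_contra hne
        have hpos : 0 < ‖u k‖ := lt_of_le_of_ne (norm_nonneg _) (Ne.symm hne)
        nlinarith
      rw [h0]
      positivity
  have hdet : X0.det ≠ 0 := by
    intro h0
    obtain ⟨u, hu, hu0⟩ := Matrix.exists_mulVec_eq_zero_iff.2 h0
    apply hu
    funext k
    have := lower u 0 le_rfl (fun a => by rw [hu0]; simp) k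
    rw [mul_zero] at this
    exact norm_le_zero_iff.1 this
  refine ⟨Matrix.GeneralLinearGroup.mkOfDetNeZero X0 hdet, fun g i j => ?_⟩
  set X : GL (Fin n) L := Matrix.GeneralLinearGroup.mkOfDetNeZero X0 hdet with hX
  have hXX : (X : Matrix (Fin n) (Fin n) L) = X0 := rfl
  have hXinv : (X : Matrix (Fin n) (Fin n) L) * ((X⁻¹ : GL (Fin n) L) : Matrix (Fin n) (Fin n) L)
      = 1 := by
    rw [← Units.val_mul, mul_inv_cancel, Units.val_one]
  set Y : Matrix (Fin n) (Fin n) L := ((X⁻¹ : GL (Fin n) L) : Matrix (Fin n) (Fin n) L) * ρ' g *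
    (X : Matrix (Fin n) (Fin n) L) - (ρ g).map (algebraMap E L) with hY
  have hXY : X0 * Y = ρ' g * X0 - X0 * (ρ g).map (algebraMap E L) := by
    rw [hY, ← hXX, Matrix.mul_sub]
    congr 1
    rw [← Matrix.mul_assoc, ← Matrix.mul_assoc, hXinv, Matrix.one_mul]
  have hD : ∀ a, ‖(X0 *ᵥ fun k => Y k j) a‖ ≤ (C₁ * C₁ * ε) * (C₁ * B') := by
    intro a
    have h1 : (X0 *ᵥ fun k => Y k j) a = (X0 * Y) a j := rfl
    rw [h1, hXY, Matrix.sub_apply]
    have h2 : (ρ' g * X0) a j = (ρ' g * R' (e j o)) a v := by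
      rw [Matrix.mul_apply, Matrix.mul_apply]
      rfl
    have h3 : (X0 * (ρ g).map (algebraMap E L)) a j =
        ∑ k, algebraMap E L (ρ g k j) * R' (e k o) a v := by
      rw [Matrix.mul_apply]
      refine Finset.sum_congr rfl fun k _ => ?_
      rw [mul_comm]
      rfl
    rw [h2, h3]
    exact st1 g j o a v
  have hfin := lower (fun k => Y k j) _ (by positivity) hD i
  have e1 : Y i j = (((X⁻¹ : GL (Fin n) L) : Matrix (Fin n) (Fin n) L) * ρ' g *
      (X : Matrix (Fin n) (Fin n) L)) i j - algebraMap E L (ρ g i j) := by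
    rw [hY, Matrix.sub_apply, Matrix.map_apply]
  rw [← e1]
  refine hfin.trans (le_of_eq ?_)
  ring

end Pool.Agent.H499.SM
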