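import Pool.Agent.H499.SM.Defs

/-! Coordinates of a finite extension of a locally compact ultrametric field. -/

set_option autoImplicit false
set_option linter.all false

namespace Pool.Agent.H499.SM

open Matrix Filter Topology Module

/-- bounded coordinates of the extension `L` of `E` -/
structure Crd (E L : Type) [NormedField E] [NormedField L] [NormedAlgebra E L] (r : ℕ) (q : ℝ) where
  e : Fin r → L
  π : Fin r → L →ₗ[E] E
  e_le : ∀ j, ‖e j‖ ≤ 1
  sum : ∀ y, ∑ j, π j y • e j = y
  le : ∀ j y, ‖π j y‖ ≤ q * ‖y‖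

theorem exists_crd (hORTH : S_ORTH) {E : Type} [NontriviallyNormedField E] [ProperSpace E] {ϖ : E}
    (h0 : 0 < ‖ϖ‖) (h1 : ‖ϖ‖ < 1) (L : Type) [NormedField L] [NormedAlgebra E L] [FiniteDimensional E L]
    [IsUltrametricDist L] : ∃ r : ℕ, Nonempty (Crd E L r ‖ϖ‖⁻¹) := by
  classical
  set b := Module.finBasis E L with hb
  obtain ⟨w, hw1, hw2, hw3, hw4⟩ := hORTH E L ⊥ (finrank E L) b ϖ h0 h1 (fun a ha => by
    have h2 : ∑ i, a i • b i = 0 := by simpa using ha
    funext i
    exact (Fintype.linearIndependent_iff.1 b.linearIndependent) a h2 i)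
  have hne : ∀ i, w i ≠ 0 := fun i h => by
    have := (hw3 i).1
    rw [h, norm_zero] at this
    exact absurd this (not_lt.2 h0.le)
  have hli : LinearIndependent E w := by
    rw [Fintype.linearIndependent_iff]
    intro a ha i
    have h2 := hw4 a 0 (Submodule.zero_mem _) i
    rw [ha, add_zero, norm_zero] at h2
    have h3 : a i • w i = 0 := norm_le_zero_iff.1 h2
    exact (smul_eq_zero.1 h3).resolve_right (hne i)
  have hspan : ⊤ ≤ Submodule.span E (Set.range w) := by
    rw [← b.span_eq, Submodule.span_le]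
    rintro _ ⟨i, rfl⟩
    have := hw2 i
    rwa [sup_bot_eq] at this
  set B : Basis (Fin (finrank E L)) E L := Basis.mk hli hspan with hB
  have hBw : ∀ i, B i = w i := fun i => Basis.mk_apply hli hspan i
  refine ⟨finrank E L, ⟨⟨w, fun j => B.coord j, fun j => (hw3 j).2, fun y => ?_, fun j y => ?_⟩⟩⟩
  · have := B.sum_repr y
    simp only [hBw] at this
    exact this
  · have hy : ∑ i, B.coord i y • w i = y := by
      have := B.sum_repr y
      simp only [hBw] at this
      exact this
    have h2 := hw4 (fun i => B.coord i y) 0 (Submodule.zero_mem _) j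
    rw [add_zero, hy, norm_smul] at h2
    have h3 := (hw3 j).1
    rw [← div_eq_inv_mul, le_div_iff₀ h0]
    exact (mul_le_mul_of_nonneg_left h3.le (norm_nonneg _)).trans h2

section crd

variable {E L : Type} [NormedField E] [IsUltrametricDist E] [NormedField L] [NormedAlgebra E L] [IsUltrametricDist L]
  {r : ℕ} {q : ℝ} (K : Crd E L r q) {n : ℕ}

/-- the coordinates of a vector -/
def Crd.co (j : Fin r) : (Fin n → L) →ₗ[E] (Fin n → E) where
  toFun x k := K.π j (x k)
  map_add' x y := funext fun k => map_add _ _ _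
  map_smul' a x := funext fun k => map_smul _ _ _

theorem Crd.co_apply (j : Fin r) (x : Fin n → L) (k : Fin n) : K.co j x k = K.π j (x k) := rfl

/-- a vector over `E` as a vector over `L` -/
def up (L : Type) [NormedField L] [NormedAlgebra E L] : (Fin n → E) →ₗ[E] (Fin n → L) where
  toFun x k := algebraMap E L (x k)
  map_add' x y := funext fun k => map_add _ _ _
  map_smul' a x := funext fun k => by
    show algebraMap E L (a * x k) = a • algebraMap E L (x k)
    rw [map_mul, Algebra.smul_def]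

theorem up_apply (x : Fin n → E) (k : Fin n) : up L x k = algebraMap E L (x k) := rfl

theorem norm_up (x : Fin n → E) : ‖up L x‖ = ‖x‖ := by
  apply le_antisymm
  · rw [pi_norm_le_iff_of_nonneg (norm_nonneg _)]
    intro k
    rw [up_apply, norm_algebraMap']
    exact norm_le_pi_norm x k
  · rw [pi_norm_le_iff_of_nonneg (norm_nonneg _)]
    intro k
    have := norm_le_pi_norm (up L x) k
    rwa [up_apply, norm_algebraMap'] at this

theorem Crd.norm_co (hq : 0 ≤ q) (j : Fin r) (x : Fin n → L) : ‖K.co j x‖ ≤ q * ‖x‖ := by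
  rw [pi_norm_le_iff_of_nonneg (mul_nonneg hq (norm_nonneg _))]
  intro k
  exact (K.le j _).trans (mul_le_mul_of_nonneg_left (norm_le_pi_norm x k) hq)

theorem Crd.sum_co (x : Fin n → L) : ∑ j, K.e j • up L (K.co j x) = x := by
  funext k
  rw [Finset.sum_apply]
  conv_rhs => rw [← K.sum (x k)]
  refine Finset.sum_congr rfl fun j _ => ?_
  rw [Pi.smul_apply, up_apply, Crd.co_apply, smul_eq_mul, mul_comm, ← Algebra.smul_def]

theorem Crd.norm_sum (f : Fin r → Fin n → E) {t : ℝ} (ht : 0 ≤ t) (h : ∀ j, ‖f j‖ ≤ t) :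
    ‖∑ j, K.e j • up L (f j)‖ ≤ t := by
  refine norm_sum_le' _ _ ht fun j _ => ?_
  rw [norm_smul, norm_up]
  calc ‖K.e j‖ * ‖f j‖ ≤ 1 * t := mul_le_mul (K.e_le j) (h j) (norm_nonneg _) zero_le_one
    _ = t := one_mul t

theorem Crd.norm_le (x : Fin n → L) {t : ℝ} (ht : 0 ≤ t) (h : ∀ j, ‖K.co j x‖ ≤ t) : ‖x‖ ≤ t := by
  rw [← K.sum_co x]
  exact K.norm_sum _ ht h

theorem up_mulVec (M : Matrix (Fin n) (Fin n) E) (x : Fin n → E) :
    up L (M *ᵥ x) = M.map (algebraMap E L) *ᵥ up L x := by
  funext k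
  rw [up_apply, Matrix.mulVec, Matrix.mulVec, dotProduct, dotProduct, map_sum]
  exact Finset.sum_congr rfl fun i _ => by rw [map_mul]; rfl

theorem Crd.co_mulVec (j : Fin r) (M : Matrix (Fin n) (Fin n) E) (x : Fin n → L) :
    K.co j (M.map (algebraMap E L) *ᵥ x) = M *ᵥ K.co j x := by
  funext k
  rw [Crd.co_apply, Matrix.mulVec, Matrix.mulVec, dotProduct, dotProduct, map_sum]
  refine Finset.sum_congr rfl fun i _ => ?_
  rw [Matrix.map_apply, ← Algebra.smul_def, map_smul, smul_eq_mul, Crd.co_apply]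

theorem Crd.co_smul (j : Fin r) (a : L) (x : Fin n → L) :
    K.co j (a • x) = ∑ l, K.π j (a * K.e l) • K.co l x := by
  funext k
  rw [Crd.co_apply, Pi.smul_apply, Finset.sum_apply]
  conv_lhs => rw [← K.sum (x k)]
  rw [smul_eq_mul, Finset.mul_sum, map_sum]
  refine Finset.sum_congr rfl fun l _ => ?_
  rw [mul_smul_comm, map_smul, Pi.smul_apply, smul_eq_mul, smul_eq_mul, mul_comm]
  rfl

theorem Crd.co_up (j : Fin r) (x : Fin n → E) : K.co j (up L x) = K.π j 1 • x := by
  funext k
  rw [Crd.co_apply, up_apply, Algebra.algebraMap_eq_smul_one, map_smul, Pi.smul_apply, smul_eq_mul, smul_eq_mul,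
    mul_comm]

theorem Crd.continuous_co [CompleteSpace E] [FiniteDimensional E L] (hq : 0 ≤ q) (j : Fin r) :
    Continuous (K.co (n := n) j) :=
  (LinearMap.mkContinuous (K.co j) q (K.norm_co hq j)).continuous

end crd

end Pool.Agent.H499.SM
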