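import Pool.Agent.H499.SM.Stm

/-! Selmer groups of representations over ultrametric fields: definitions and elementary estimates. -/

set_option autoImplicit false
set_option linter.all false

namespace Pool.Agent.H499.SM

open Matrix Filter Topology Module

section defs

variable {G E : Type} [Group G] [TopologicalSpace G] [NormedField E] {n : ℕ} {ι : Type}

/-- the coboundary of `x` -/
def cob (ρ : G →* Matrix (Fin n) (Fin n) E) : (Fin n → E) →ₗ[E] (G → Fin n → E) where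
  toFun x g := ρ g *ᵥ x - x
  map_add' x y := by
    funext g
    rw [Matrix.mulVec_add, Pi.add_apply]
    abel
  map_smul' a x := by
    funext g
    rw [Matrix.mulVec_smul, Pi.smul_apply, RingHom.id_apply, smul_sub]

theorem cob_apply (ρ : G →* Matrix (Fin n) (Fin n) E) (x : Fin n → E) (g : G) : cob ρ x g = ρ g *ᵥ x - x := rfl

/-- the continuous cocycles with values in `E ^ n` which are zero on `I` and coboundaries on the sets `D i` -/
def CocM (ρ : G →* Matrix (Fin n) (Fin n) E) (I : Set G) (D : ι → Set G) : Submodule E (G → Fin n → E) where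
  carrier := {c | Continuous c ∧ (∀ g h, c (g * h) = c g + ρ g *ᵥ c h) ∧ (∀ g ∈ I, c g = 0) ∧
    ∀ i, ∃ x : Fin n → E, ∀ d ∈ D i, c d = ρ d *ᵥ x - x}
  add_mem' := by
    rintro c c' ⟨h1, h2, h3, h4⟩ ⟨h1', h2', h3', h4'⟩
    refine ⟨h1.add h1', fun g h => ?_, fun g hg => ?_, fun i => ?_⟩
    · rw [Pi.add_apply, Pi.add_apply, Pi.add_apply, h2, h2', Matrix.mulVec_add]
      abel
    · rw [Pi.add_apply, h3 g hg, h3' g hg, add_zero]
    · obtain ⟨x, hx⟩ := h4 i
      obtain ⟨x', hx'⟩ := h4' i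
      refine ⟨x + x', fun d hd => ?_⟩
      rw [Pi.add_apply, hx d hd, hx' d hd, Matrix.mulVec_add]
      abel
  zero_mem' := by
    refine ⟨continuous_const, fun g h => ?_, fun g _ => rfl, fun i => ⟨0, fun d _ => ?_⟩⟩
    · rw [Pi.zero_apply, Pi.zero_apply, Pi.zero_apply, Matrix.mulVec_zero, add_zero]
    · rw [Pi.zero_apply, Matrix.mulVec_zero, sub_zero]
  smul_mem' := by
    rintro a c ⟨h1, h2, h3, h4⟩
    refine ⟨h1.const_smul a, fun g h => ?_, fun g hg => ?_, fun i => ?_⟩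
    · rw [Pi.smul_apply, Pi.smul_apply, Pi.smul_apply, h2, smul_add, Matrix.mulVec_smul]
    · rw [Pi.smul_apply, h3 g hg, smul_zero]
    · obtain ⟨x, hx⟩ := h4 i
      refine ⟨a • x, fun d hd => ?_⟩
      rw [Pi.smul_apply, hx d hd, smul_sub, Matrix.mulVec_smul]

/-- the invariants of the set `D` -/
def invM (ρ : G →* Matrix (Fin n) (Fin n) E) (D : Set G) : Submodule E (Fin n → E) where
  carrier := {x | ∀ d ∈ D, ρ d *ᵥ x = x}
  add_mem' := by
    intro x y hx hy d hd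
    rw [Matrix.mulVec_add, hx d hd, hy d hd]
  zero_mem' := fun d _ => Matrix.mulVec_zero _
  smul_mem' := by
    intro a x hx d hd
    rw [Matrix.mulVec_smul, hx d hd]

/-- the dimension of the Selmer group is at most `r` -/
def RankLE (ρ : G →* Matrix (Fin n) (Fin n) E) (I : Set G) (D : ι → Set G) (r : ℕ) : Prop :=
  ∀ c : Fin (r + 1) → G → Fin n → E, (∀ i, c i ∈ CocM ρ I D) →
    ∃ a : Fin (r + 1) → E, a ≠ 0 ∧ ∑ i, a i • c i ∈ LinearMap.range (cob ρ)

theorem cob_mem {ρ : G →* Matrix (Fin n) (Fin n) E} (hρ : ∀ i j, Continuous fun g => ρ g i j) {I : Set G}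
    (hI : ∀ g ∈ I, ρ g = 1) (D : ι → Set G) (x : Fin n → E) : cob ρ x ∈ CocM ρ I D := by
  refine ⟨?_, fun g h => ?_, fun g hg => ?_, fun i => ⟨x, fun d _ => rfl⟩⟩
  · have h1 : Continuous fun g => ρ g := continuous_matrix hρ
    exact (h1.matrix_mulVec continuous_const).sub continuous_const
  · rw [cob_apply, cob_apply, cob_apply, map_mul, Matrix.mulVec_sub, Matrix.mulVec_mulVec]
    abel
  · rw [cob_apply, hI g hg, Matrix.one_mulVec, sub_self]

end defs

section estimates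

variable {E : Type} [NormedField E] [IsUltrametricDist E] {n : ℕ}

theorem norm_sum_le' {V : Type} [SeminormedAddCommGroup V] [IsUltrametricDist V] {κ : Type} (s : Finset κ)
    (f : κ → V) {t : ℝ} (ht : 0 ≤ t) (h : ∀ i ∈ s, ‖f i‖ ≤ t) : ‖∑ i ∈ s, f i‖ ≤ t :=
  IsUltrametricDist.norm_sum_le_of_forall_le_of_nonneg ht h

theorem mulVec_le {M : Matrix (Fin n) (Fin n) E} {s : ℝ} (hs : 0 ≤ s) (hM : ∀ i j, ‖M i j‖ ≤ s) (x : Fin n → E) :
    ‖M *ᵥ x‖ ≤ s * ‖x‖ := by
  rw [pi_norm_le_iff_of_nonneg (mul_nonneg hs (norm_nonneg _))]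
  intro i
  rw [Matrix.mulVec, dotProduct]
  refine norm_sum_le' _ _ (mul_nonneg hs (norm_nonneg _)) fun j _ => ?_
  rw [norm_mul]
  exact mul_le_mul (hM i j) (norm_le_pi_norm x j) (norm_nonneg _) hs

theorem mulVec_le' {M : Matrix (Fin n) (Fin n) E} (hM : ∀ i j, ‖M i j‖ ≤ 1) (x : Fin n → E) : ‖M *ᵥ x‖ ≤ ‖x‖ := by
  have := mulVec_le zero_le_one hM x
  rwa [one_mul] at this

theorem sub_le_max {V : Type} [SeminormedAddCommGroup V] [IsUltrametricDist V] (x y : V) : ‖x - y‖ ≤ max ‖x‖ ‖y‖ := by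
  rw [sub_eq_add_neg]
  refine (IsUltrametricDist.norm_add_le_max x (-y)).trans ?_
  rw [norm_neg]

theorem add_le_max {V : Type} [SeminormedAddCommGroup V] [IsUltrametricDist V] (x y : V) : ‖x + y‖ ≤ max ‖x‖ ‖y‖ :=
  IsUltrametricDist.norm_add_le_max x y

/-- the action as an isometric action on `E ^ n` -/
noncomputable def actM {G : Type} [Group G] (ρ : G →* Matrix (Fin n) (Fin n) E) : G →* Module.End E (Fin n → E) :=
  (Matrix.toLinAlgEquiv' (R := E) (n := Fin n)).toAlgHom.toRingHom.toMonoidHom.comp ρ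

theorem actM_apply {G : Type} [Group G] (ρ : G →* Matrix (Fin n) (Fin n) E) (g : G) (x : Fin n → E) :
    actM ρ g x = ρ g *ᵥ x := Matrix.toLin'_apply (ρ g) x

theorem actM_act {G : Type} [Group G] [TopologicalSpace G] {ρ : G →* Matrix (Fin n) (Fin n) E}
    (hρ : ∀ i j, Continuous fun g => ρ g i j) (h1 : ∀ g i j, ‖ρ g i j‖ ≤ 1) : Act (actM ρ) := by
  refine ⟨fun g x => ?_, fun x => ?_⟩
  · rw [actM_apply]
    exact mulVec_le' (h1 g) x
  · simp only [actM_apply]
    have h2 : Continuous fun g => ρ g := continuous_matrix hρ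
    exact h2.matrix_mulVec continuous_const

end estimates

/-- **Approximate cocycles are near cocycles.** -/
theorem approx (hLIM : S_LIM) {E : Type} [NontriviallyNormedField E] [ProperSpace E] [IsUltrametricDist E] {G : Type}
    [Group G] [TopologicalSpace G] [IsTopologicalGroup G] [CompactSpace G] {I : Set G} (hI : HMFin G I) {n : ℕ}
    {ρ : G →* Matrix (Fin n) (Fin n) E} (hρ : ∀ i j, Continuous fun g => ρ g i j) (h1 : ∀ g i j, ‖ρ g i j‖ ≤ 1)
    {ι : Type} [Finite ι] (D : ι → Set G) (R : ℝ) {η : ℝ} (hη : 0 < η) :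
    ∃ ε : ℝ, 0 < ε ∧ ∀ z : G → Fin n → E, Continuous z → (∀ g, ‖z g‖ ≤ R) → (∀ g ∈ I, z g = 0) →
      (∀ g h, ‖z (g * h) - z g - ρ g *ᵥ z h‖ ≤ ε) →
      (∀ i, ∃ x : Fin n → E, ‖x‖ ≤ R ∧ ∀ d ∈ D i, ‖z d - (ρ d *ᵥ x - x)‖ ≤ ε) →
      ∃ c ∈ CocM ρ I D, ∀ g, ‖z g - c g‖ ≤ η := by
  by_contra hcon
  push Not at hcon
  choose z hz1 hz2 hz3 hz4 hz5 hz6 using fun m : ℕ => hcon (1 / ((m : ℝ) + 1)) (by positivity)
  choose x hx1 hx2 using hz5
  set 𝓤 : Ultrafilter ℕ := hyperfilter ℕ with h𝓤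
  have hle : (𝓤 : Filter ℕ) ≤ atTop := Nat.hyperfilter_le_atTop
  have hε : Tendsto (fun m : ℕ => 1 / ((m : ℝ) + 1)) 𝓤 (𝓝 0) :=
    tendsto_one_div_add_atTop_nhds_zero_nat.mono_left hle
  haveI : ProperSpace (Fin n → E) := inferInstance
  obtain ⟨c, hc1, hc2, hc3, hc4⟩ := hLIM E (Fin n → E) G I hI (actM ρ) (actM_act hρ h1) 𝓤 R
    (fun m => 1 / ((m : ℝ) + 1)) z hε hz1 hz2 hz3 (fun m g h => by rw [actM_apply]; exact hz4 m g h)
  have hcmem : c ∈ CocM ρ I D := by
    refine ⟨hc1, fun g h => by rw [hc2, actM_apply], hc3, fun i => ?_⟩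
    have hcomp := isCompact_closedBall (0 : Fin n → E) R
    have hx : ∀ m, x m i ∈ Metric.closedBall (0 : Fin n → E) R := fun m => by
      rw [mem_closedBall_zero_iff]
      exact hx1 m i
    obtain ⟨y, hy, hlim⟩ := hcomp.ultrafilter_le_nhds (𝓤.map fun m => x m i) (by
      rw [Ultrafilter.coe_map, le_principal_iff]
      exact Filter.mem_map.2 (Filter.univ_mem' hx))
    have hlim' : Tendsto (fun m => x m i) 𝓤 (𝓝 y) := hlim
    refine ⟨y, fun d hd => ?_⟩
    have h2 : Tendsto (fun m => z m d - (ρ d *ᵥ x m i - x m i)) 𝓤 (𝓝 0) := by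
      refine squeeze_zero_norm (fun m => hx2 m i d hd) hε
    have h3 : Tendsto (fun m => z m d) 𝓤 (𝓝 (c d)) := by
      rw [Metric.tendsto_nhds]
      intro e he
      refine (hc4 (e / 2) (half_pos he)).mono fun m hm => ?_
      rw [dist_eq_norm]
      exact lt_of_le_of_lt (hm d) (half_lt_self he)
    have h4 : Tendsto (fun m => ρ d *ᵥ x m i - x m i) 𝓤 (𝓝 (ρ d *ᵥ y - y)) := by
      have hcont : Continuous fun v : Fin n → E => ρ d *ᵥ v := continuous_const.matrix_mulVec continuous_id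
      exact ((hcont.tendsto y).comp hlim').sub hlim'
    have h5 := h3.sub h4
    have h6 := tendsto_nhds_unique h2 h5
    exact (sub_eq_zero.1 h6.symm)
  obtain ⟨m, hm⟩ := (hc4 η hη).exists
  obtain ⟨g, hg⟩ := hz6 m c hcmem
  exact absurd (hm g) (not_le.2 hg)

end Pool.Agent.H499.SM
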