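import Pool.Agent.H499.SM.Rank

/-! Change of the field of coefficients. -/

set_option autoImplicit false
set_option linter.all false

namespace Pool.Agent.H499.SM

open Matrix Filter Topology Module

section desc

variable {E L : Type} [NormedField E] [IsUltrametricDist E] [NormedField L] [NormedAlgebra E L] [IsUltrametricDist L]
  {G : Type} [Group G] [TopologicalSpace G] {n : ℕ}

/-- change of the field of coefficients -/
noncomputable def upR (L : Type) [NormedField L] [NormedAlgebra E L] (ρ : G →* Matrix (Fin n) (Fin n) E) :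
    G →* Matrix (Fin n) (Fin n) L :=
  ((algebraMap E L).mapMatrix : Matrix (Fin n) (Fin n) E →+* Matrix (Fin n) (Fin n) L).toMonoidHom.comp ρ

theorem upR_apply (ρ : G →* Matrix (Fin n) (Fin n) E) (g : G) : upR L ρ g = (ρ g).map (algebraMap E L) := rfl

/-- a linear form on all coordinates -/
def lam (l : L →ₗ[E] E) : (Fin n → L) →ₗ[E] (Fin n → E) where
  toFun x k := l (x k)
  map_add' x y := funext fun k => map_add _ _ _
  map_smul' a x := funext fun k => map_smul _ _ _

theorem lam_mulVec (l : L →ₗ[E] E) (M : Matrix (Fin n) (Fin n) E) (x : Fin n → L) :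
    lam l (M.map (algebraMap E L) *ᵥ x) = M *ᵥ lam l x := by
  funext k
  show l _ = _
  rw [Matrix.mulVec, Matrix.mulVec, dotProduct, dotProduct, map_sum]
  refine Finset.sum_congr rfl fun i _ => ?_
  rw [Matrix.map_apply, ← Algebra.smul_def, map_smul, smul_eq_mul]
  rfl

theorem lam_smul_up (l : L →ₗ[E] E) (a : L) (x : Fin n → E) : lam l (a • up L x) = l a • x := by
  funext k
  show l (a * algebraMap E L (x k)) = l a * x k
  rw [mul_comm a, ← Algebra.smul_def, map_smul, smul_eq_mul, mul_comm]

theorem lam_up {l : L →ₗ[E] E} (hl : l 1 = 1) (x : Fin n → E) : lam l (up L x) = x := by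
  have := lam_smul_up l 1 x
  rwa [one_smul, hl, one_smul] at this

theorem exists_form {a : L} (ha : a ≠ 0) : ∃ l : L →ₗ[E] E, l a ≠ 0 := by
  by_contra h
  push Not at h
  exact ha ((Module.forall_dual_apply_eq_zero_iff E a).1 h)

theorem exists_form_one : ∃ l : L →ₗ[E] E, l 1 = 1 := by
  obtain ⟨l, hl⟩ := exists_form (E := E) (one_ne_zero (α := L))
  exact ⟨(l 1)⁻¹ • l, by rw [LinearMap.smul_apply, smul_eq_mul, inv_mul_cancel₀ hl]⟩

theorem up_continuous : Continuous (up (n := n) (E := E) L) :=
  AddMonoidHomClass.continuous_of_bound (up L) 1 fun x => by rw [norm_up, one_mul]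

theorem up_mem {ρ : G →* Matrix (Fin n) (Fin n) E} {I : Set G} {ι : Type} {D : ι → Set G} {c : G → Fin n → E}
    (hc : c ∈ CocM ρ I D) : (fun g => up L (c g)) ∈ CocM (upR L ρ) I D := by
  obtain ⟨h1, h2, h3, h4⟩ := hc
  refine ⟨up_continuous.comp h1, fun g h => ?_, fun g hg => ?_, fun i => ?_⟩
  · show up L (c (g * h)) = _
    rw [h2, map_add, up_mulVec]
    rfl
  · show up L (c g) = 0
    rw [h3 g hg, map_zero]
  · obtain ⟨x, hx⟩ := h4 i
    refine ⟨up L x, fun d hd => ?_⟩
    show up L (c d) = _
    rw [hx d hd, map_sub, up_mulVec]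
    rfl

/-- from `L` to `E` -/
theorem rankLE_of_rank {ρ : G →* Matrix (Fin n) (Fin n) E} {I : Set G} {ι : Type} {D : ι → Set G} {d : ℕ}
    (P : (G → Fin n → L) → Prop) (hP : ∀ c : G → Fin n → E, P (fun g => up L (c g)))
    (hd : ∀ c : Fin (d + 1) → G → Fin n → L, (∀ i, c i ∈ CocM (upR L ρ) I D ∧ P (c i)) →
      ∃ a : Fin (d + 1) → L, a ≠ 0 ∧ ∑ i, a i • c i ∈ LinearMap.range (cob (upR L ρ))) : RankLE ρ I D d := by
  intro c hc
  obtain ⟨a, ha, x, hx⟩ := hd (fun i g => up L (c i g)) fun i => ⟨up_mem (hc i), hP _⟩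
  obtain ⟨i0, hi0⟩ := Function.ne_iff.1 ha
  obtain ⟨l, hl⟩ := exists_form (E := E) hi0
  refine ⟨fun i => l (a i), fun h => hl (congrFun h i0), lam l x, ?_⟩
  funext g
  have h1 := congrArg (lam l) (congrFun hx g)
  rw [cob_apply, upR_apply, map_sub, lam_mulVec] at h1
  rw [cob_apply, h1, Finset.sum_apply, Finset.sum_apply, map_sum]
  refine Finset.sum_congr rfl fun i _ => ?_
  exact lam_smul_up l (a i) (c i g)

/-- from `E` to `L` -/
theorem rank_of_rankLE {ρ : G →* Matrix (Fin n) (Fin n) E} {I : Set G} {ι : Type} {D : ι → Set G} {d : ℕ}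
    (hd : RankLE ρ I D d) (c : Fin (d + 1) → G → Fin n → E) (hcont : ∀ i, Continuous (c i))
    (hc : ∀ i, (fun g => up L (c i g)) ∈ CocM (upR L ρ) I D) :
    ∃ a : Fin (d + 1) → L, a ≠ 0 ∧ ∑ i, a i • (fun g => up L (c i g)) ∈ LinearMap.range (cob (upR L ρ)) := by
  have hinj : Function.Injective (up (n := n) (E := E) L) := fun x y h => by
    have : ‖x - y‖ = 0 := by rw [← norm_up (L := L), map_sub, h, sub_self, norm_zero]
    exact sub_eq_zero.1 (norm_eq_zero.1 this)
  obtain ⟨l, hl⟩ := exists_form_one (E := E) (L := L)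
  obtain ⟨a, ha, x, hx⟩ := hd c fun i => by
    obtain ⟨h1, h2, h3, h4⟩ := hc i
    refine ⟨hcont i, fun g h => hinj ?_, fun g hg => hinj ?_, fun k => ?_⟩
    · rw [map_add, up_mulVec]
      exact h2 g h
    · rw [map_zero]
      exact h3 g hg
    · obtain ⟨x, hx⟩ := h4 k
      refine ⟨lam l x, fun d hd => ?_⟩
      have h5 := congrArg (lam l) (hx d hd)
      have h6 : lam l (up L (c i d)) = c i d := lam_up hl _
      have h7 : lam l (up L (c i d)) = lam l (upR L ρ d *ᵥ x - x) := h5
      rw [h6, upR_apply, map_sub, lam_mulVec] at h7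
      exact h7
  refine ⟨fun i => algebraMap E L (a i), fun h => ha (funext fun i => ?_), up L x, ?_⟩
  · exact (algebraMap E L).injective ((congrFun h i).trans (map_zero _).symm)
  · funext g
    have h1 := congrArg (up L) (congrFun hx g)
    rw [cob_apply, map_sub, up_mulVec] at h1
    rw [cob_apply, upR_apply, h1, Finset.sum_apply, Finset.sum_apply, map_sum]
    refine Finset.sum_congr rfl fun i _ => ?_
    rw [Pi.smul_apply, Pi.smul_apply, map_smul, algebraMap_smul]

theorem finrank_inv (ρ : G →* Matrix (Fin n) (Fin n) E) (D : Set G) :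
    finrank E (invM ρ D) = finrank L (invM (upR L ρ) D) := by
  classical
  set b := Module.finBasis E (invM ρ D) with hb
  have hmem : ∀ i, up L (b i : Fin n → E) ∈ invM (upR L ρ) D := by
    intro i d hd
    rw [upR_apply, ← up_mulVec, (b i).2 d hd]
  have hli : LinearIndependent L (fun i => (⟨up L (b i : Fin n → E), hmem i⟩ : invM (upR L ρ) D)) := by
    rw [Fintype.linearIndependent_iff]
    intro a ha i
    by_contra hne
    obtain ⟨l, hl⟩ := exists_form (E := E) hne
    apply hl
    have h1 : ∑ i, a i • up L (b i : Fin n → E) = 0 := by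
      have := congrArg Subtype.val ha
      simpa using this
    have h2 := congrArg (lam l) h1
    rw [map_sum, map_zero] at h2
    simp only [lam_smul_up] at h2
    have h4 : ∑ i, l (a i) • b i = 0 := by
      apply Subtype.ext
      rw [Submodule.coe_sum, Submodule.coe_zero]
      exact h2
    exact (Fintype.linearIndependent_iff.1 b.linearIndependent) _ h4 i
  apply le_antisymm
  · have := hli.fintype_card_le_finrank
    rwa [Fintype.card_fin] at this
  · have hspan : ⊤ ≤ Submodule.span L (Set.range fun i =>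
        (⟨up L (b i : Fin n → E), hmem i⟩ : invM (upR L ρ) D)) := by
      rintro ⟨x, hx⟩ -
      -- the span of the coordinates
      set F : Submodule E L := Submodule.span E (Set.range x) with hF
      haveI : FiniteDimensional E F := FiniteDimensional.span_of_finite E (Set.finite_range x)
      set e := Module.finBasis E F with he
      choose π hπ using fun j => LinearMap.exists_extend (e.coord j)
      have hxF : ∀ k, x k ∈ F := fun k => Submodule.subset_span ⟨k, rfl⟩
      have hsum : x = ∑ j, (e j : L) • up L (lam (π j) x) := by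
        funext k
        have h1 := e.sum_repr ⟨x k, hxF k⟩
        have h2 := congrArg Subtype.val h1
        rw [Finset.sum_apply]
        rw [Submodule.coe_sum] at h2
        rw [show x k = ∑ j, ((e.repr ⟨x k, hxF k⟩ j • e j : F) : L) from h2.symm]
        refine Finset.sum_congr rfl fun j _ => ?_
        have h3 : π j (x k) = e.repr ⟨x k, hxF k⟩ j := by
          have := LinearMap.congr_fun (hπ j) ⟨x k, hxF k⟩
          exact this
        show e.repr ⟨x k, hxF k⟩ j • (e j : L) = (e j : L) * algebraMap E L (π j (x k))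
        rw [h3, Algebra.smul_def, mul_comm]
      have hinv : ∀ j, lam (π j) x ∈ invM ρ D := by
        intro j d hd
        rw [← lam_mulVec]
        have := hx d hd
        rw [upR_apply] at this
        rw [this]
      have h5 : (⟨x, hx⟩ : invM (upR L ρ) D) = ∑ i, (∑ j, (e j : L) * algebraMap E L (b.repr ⟨_, hinv j⟩ i)) •
          (⟨up L (b i : Fin n → E), hmem i⟩ : invM (upR L ρ) D) := by
        apply Subtype.ext
        rw [Submodule.coe_sum]
        show x = ∑ i, (∑ j, (e j : L) * algebraMap E L (b.repr ⟨_, hinv j⟩ i)) • up L (b i : Fin n → E)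
        conv_lhs => rw [hsum]
        have h6 : ∀ j, up L (lam (π j) x) = ∑ i, algebraMap E L (b.repr ⟨_, hinv j⟩ i) • up L (b i : Fin n → E) := by
          intro j
          have h7 := congrArg Subtype.val (b.sum_repr ⟨_, hinv j⟩)
          rw [Submodule.coe_sum] at h7
          have h8 := congrArg (up L) h7
          rw [map_sum] at h8
          rw [← h8]
          refine Finset.sum_congr rfl fun i _ => ?_
          rw [Submodule.coe_smul, map_smul, algebraMap_smul]
        simp only [h6, Finset.smul_sum, smul_smul, Finset.sum_smul]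
        rw [Finset.sum_comm]
      rw [h5]
      exact Submodule.sum_mem _ fun i _ => Submodule.smul_mem _ _ (Submodule.subset_span ⟨i, rfl⟩)
    have h10 : finrank L (invM (upR L ρ) D) ≤ Fintype.card (Fin (finrank E (invM ρ D))) :=
      finrank_le_of_span_eq_top (top_le_iff.1 hspan)
    rwa [Fintype.card_fin] at h10

end desc

end Pool.Agent.H499.SM
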