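import Pool.Agent.H499.SM.Main

/-! Semicontinuity of Selmer groups: the theorems on Galois representations. -/

set_option autoImplicit false
set_option linter.all false

namespace Pool.Agent.H499.SM

open Matrix Filter Topology Module NumberField IsDedekindDomain
open Pool.Agent.W401.Cheb (GK IsFrob IsInert)
open Pool.Agent.H499.CM Pool.Agent.H499.PW Pool.Agent.H499.IR
open Pool.Agent.X320.DS (toEnd toEnd_apply)

variable {K : Type} [Field K] [NumberField K] {ℓ : ℕ} [Fact ℓ.Prime] {n : ℕ}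

/-- the matrices of a representation -/
noncomputable def mt (ρ : GK K →* GL (Fin n) (PadicAlgCl ℓ)) : GK K →* Matrix (Fin n) (Fin n) (PadicAlgCl ℓ) :=
  (Units.coeHom _).comp ρ

theorem mt_apply (ρ : GK K →* GL (Fin n) (PadicAlgCl ℓ)) (g : GK K) :
    mt ρ g = (ρ g : Matrix (Fin n) (Fin n) (PadicAlgCl ℓ)) := rfl

theorem mt_cont {ρ : GK K →* GL (Fin n) (PadicAlgCl ℓ)} (hρ : Continuous ρ) (i j : Fin n) :
    Continuous fun g => mt ρ g i j := (Units.continuous_val.comp hρ).matrix_elem i j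

/-- all that is needed of a representation -/
structure Gd (S : Set (HeightOneSpectrum (𝓞 K))) (ρ : GK K →* GL (Fin n) (PadicAlgCl ℓ)) : Prop where
  cont : Continuous ρ
  fin : Fin2 fun g => mt ρ g
  unr : ∀ v ∉ S, ∀ σ, IsInert v σ → ρ σ = 1

/-- an integral model -/
theorem exists_cj {S : Set (HeightOneSpectrum (𝓞 K))} {ρ : GK K →* GL (Fin n) (PadicAlgCl ℓ)} (h : Gd S ρ) :
    ∃ X : GL (Fin n) (PadicAlgCl ℓ), (Fin2 fun g => cj X (mt ρ) g) ∧
      (∀ i j, Continuous fun g => cj X (mt ρ) g i j) ∧ (∀ g i j, ‖cj X (mt ρ) g i j‖ ≤ 1) ∧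
      (∀ g ∈ Inr S, cj X (mt ρ) g = 1) ∧ ∀ g, (cj X (mt ρ) g).trace = (mt ρ g).trace := by
  obtain ⟨N, X, hX⟩ := exists_model ρ h.cont
  refine ⟨X, ((Fin2.const _).mul h.fin).mul (Fin2.const _), fun i j => ?_, fun g i j => ?_, ?_, fun g => ?_⟩
  · have h2 : Continuous fun g => mt ρ g := Units.continuous_val.comp h.cont
    have h3 : Continuous fun g => cj X (mt ρ) g := (continuous_const.matrix_mul h2).matrix_mul continuous_const
    exact h3.matrix_elem i j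
  · have h1 : cj X (mt ρ) g = (N g).map (algebraMap (OO ℓ) (PadicAlgCl ℓ)) := by
      rw [hX, cj_apply, mt_apply]
      rw [Units.val_mul, Units.val_mul]
    rw [h1]
    exact norm_coe_le (N g i j)
  · rintro g ⟨v, hv, hg⟩
    rw [cj_apply, mt_apply, h.unr v hv g hg, Units.val_one, mul_one]
    exact iv_mul X
  · rw [cj_apply, Matrix.trace_mul_comm, ← mul_assoc, mul_iv, one_mul]

/-- the traces of representations which are congruent at most places -/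
theorem traces_most {S : Set (HeightOneSpectrum (𝓞 K))} (hS : S.Finite)
    {ρ ρ' : GK K →* GL (Fin n) (PadicAlgCl ℓ)} (hρ : Continuous ρ) (hρ' : Continuous ρ') (m : ℕ) (δ : ℝ)
    (hδ : δ * (2 * n ^ 2) < 1) (h : UpperDensityLE (fun v => v ∉ S ∧
      ¬ ∀ σ, IsFrob v σ → ‖(mt ρ σ⁻¹).trace - (mt ρ' σ⁻¹).trace‖ ≤ ‖(ℓ : PadicAlgCl ℓ)‖ ^ m) δ) (σ : GK K) :
    ‖(mt ρ σ).trace - (mt ρ' σ).trace‖ ≤ ‖(ℓ : PadicAlgCl ℓ)‖ ^ m := by
  obtain ⟨N, hN⟩ := exists_model ρ hρ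
  obtain ⟨N', hN'⟩ := exists_model ρ' hρ'
  obtain ⟨δ', hδ', hfew⟩ := few_all hS h (by positivity) hδ
  have h1 := comb_eq_galois (chain_RR m) (redRep N m) (hN.isOpen_ker hρ m) (k := 1) (fun _ => n) (fun _ => 1)
    (fun _ => redRep N' m) (fun _ => hN'.isOpen_ker hρ' m) _ δ' (by
      have e : ((n ^ 2 + ∑ i : Fin 1, n ^ 2 : ℕ) : ℝ) = 2 * n ^ 2 := by
        rw [Fin.sum_univ_one]
        push_cast
        ring
      rw [e]
      exact hδ') hfew (fun v hv τ hτ => by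
      rw [Fin.sum_univ_one, one_mul, redRep_trace, redRep_trace, mk_eq, hN.trace, hN'.trace]
      push Not at hv
      exact hv.2 τ hτ) σ
  rw [Fin.sum_univ_one, one_mul, redRep_trace, redRep_trace, mk_eq, hN.trace, hN'.trace] at h1
  exact h1

theorem span_of_irr {ρ : GK K →* GL (Fin n) (PadicAlgCl ℓ)} (h : Irr ρ) (X : GL (Fin n) (PadicAlgCl ℓ)) :
    Submodule.span (PadicAlgCl ℓ) (Set.range fun g => cj X (mt ρ) g) = ⊤ := by
  classical
  have h1 := irr_span h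
  -- linear equivalence `M ↦ X⁻¹ M X` from endomorphisms to matrices
  let T : Module.End (PadicAlgCl ℓ) (Fin n → PadicAlgCl ℓ) →ₗ[PadicAlgCl ℓ] Matrix (Fin n) (Fin n) (PadicAlgCl ℓ) :=
    { toFun := fun f => iv X * LinearMap.toMatrix' f * (X : Matrix (Fin n) (Fin n) (PadicAlgCl ℓ))
      map_add' := fun f g => by rw [map_add, mul_add, add_mul]
      map_smul' := fun a f => by
        rw [map_smul, Matrix.mul_smul, Matrix.smul_mul, RingHom.id_apply] }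
  have hT : Function.Surjective T := by
    intro M
    refine ⟨Matrix.toLin' ((X : Matrix (Fin n) (Fin n) (PadicAlgCl ℓ)) * M * iv X), ?_⟩
    show iv X * LinearMap.toMatrix' _ * (X : Matrix (Fin n) (Fin n) (PadicAlgCl ℓ)) = M
    rw [LinearMap.toMatrix'_toLin', ← mul_assoc, ← mul_assoc, iv_mul, one_mul, mul_assoc, iv_mul, mul_one]
  have h2 : Submodule.map T (Submodule.span (PadicAlgCl ℓ) (Set.range (toEnd ρ))) = ⊤ := by
    rw [h1, Submodule.map_top, LinearMap.range_eq_top.2 hT]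
  rw [Submodule.map_span] at h2
  rw [← h2]
  congr 1
  ext M
  constructor
  · rintro ⟨g, rfl⟩
    refine ⟨toEnd ρ g, ⟨g, rfl⟩, ?_⟩
    show iv X * LinearMap.toMatrix' (toEnd ρ g) * (X : Matrix (Fin n) (Fin n) (PadicAlgCl ℓ)) = cj X (mt ρ) g
    have h3 : LinearMap.toMatrix' (toEnd ρ g) = mt ρ g := LinearMap.toMatrix'_toLin' _
    rw [h3]
    rfl
  · rintro ⟨_, ⟨g, rfl⟩, rfl⟩
    refine ⟨g, ?_⟩
    show cj X (mt ρ) g = iv X * LinearMap.toMatrix' (toEnd ρ g) * (X : Matrix (Fin n) (Fin n) (PadicAlgCl ℓ))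
    have h3 : LinearMap.toMatrix' (toEnd ρ g) = mt ρ g := LinearMap.toMatrix'_toLin' _
    rw [h3]
    rfl

/-- **Semicontinuity.** -/
theorem semicont {S : Set (HeightOneSpectrum (𝓞 K))} (hS : S.Finite) {ρ : GK K →* GL (Fin n) (PadicAlgCl ℓ)}
    (hρ : Gd S ρ) (hirr : Irr ρ) {ι : Type} [Finite ι] (D : ι → Set (GK K)) {d : ℕ} (hd : RankF (mt ρ) S D d) :
    ∃ m : ℕ, ∀ ρ' : GK K →* GL (Fin n) (PadicAlgCl ℓ), Gd S ρ' →
      (∀ σ, ‖(mt ρ σ).trace - (mt ρ' σ).trace‖ ≤ ‖(ℓ : PadicAlgCl ℓ)‖ ^ m) →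
      (∀ i, finrank (PadicAlgCl ℓ) (invM (mt ρ) (D i)) ≤ finrank (PadicAlgCl ℓ) (invM (mt ρ') (D i))) →
      RankF (mt ρ') S D d := by
  obtain ⟨X, hX1, hX2, hX3, hX4, hX5⟩ := exists_cj hρ
  obtain ⟨ε, hε, h⟩ := near_rank hS hirr.1 hX1 hX2 hX3 hX4 (span_of_irr hirr X) D (rankF_cj hd)
  obtain ⟨m, hm⟩ := exists_pow_lt_of_lt_one hε (norm_ell_lt (ℓ := ℓ))
  refine ⟨m, fun ρ' hρ' htr hdim => ?_⟩
  obtain ⟨Y, hY1, hY2, hY3, hY4, hY5⟩ := exists_cj hρ'
  refine rankF_of_cj (X := Y) (h _ hY1 hY2 hY3 hY4 (fun g => ?_) fun i => ?_)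
  · rw [hX5, hY5, ← norm_neg, neg_sub]
    exact (htr g).trans hm.le
  · rw [finrank_cj, finrank_cj]
    exact hdim i

theorem exists_rankF {S : Set (HeightOneSpectrum (𝓞 K))} (hS : S.Finite) {ρ : GK K →* GL (Fin n) (PadicAlgCl ℓ)}
    (hρ : Gd S ρ) {ι : Type} (D : ι → Set (GK K)) : ∃ r, RankF (mt ρ) S D r := by
  obtain ⟨X, hX1, hX2, hX3, hX4, hX5⟩ := exists_cj hρ
  obtain ⟨r, hr⟩ := exists_rank hS hX1 hX2 hX3 hX4 D
  exact ⟨r, rankF_of_cj hr⟩

end Pool.Agent.H499.SM
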