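import Pool.Agent.H499.SM.Desc
import Pool.Agent.H499.SM.ORTH
import Pool.Agent.H499.SM.LIM
import Pool.Agent.H499.SM.CONJ
import Pool.Agent.H499.IR.Thm

/-! Selmer groups over the algebraic closure of `ℚ_ℓ`. -/

set_option autoImplicit false
set_option linter.all false

namespace Pool.Agent.H499.SM

open Matrix Filter Topology Module NumberField IsDedekindDomain
open Pool.Agent.W401.Cheb (GK IsFrob IsInert)
open Pool.Agent.H499.CM Pool.Agent.H499.PW Pool.Agent.H499.IR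

section fields

variable {ℓ : ℕ} [Fact ℓ.Prime]

noncomputable instance nnfE (E : IntermediateField ℚ_[ℓ] (PadicAlgCl ℓ)) : NontriviallyNormedField E :=
  { SubfieldClass.toNormedField E with
    non_trivial := by
      refine ⟨(ℓ : E)⁻¹, ?_⟩
      have h1 : ‖(ℓ : E)‖ = ‖(ℓ : PadicAlgCl ℓ)‖ := rfl
      have h2 : 0 < ‖(ℓ : PadicAlgCl ℓ)‖ := norm_ell_pos
      have h3 : ‖(ℓ : PadicAlgCl ℓ)‖ < 1 := norm_ell_lt
      have h4 : ‖(ℓ : E)⁻¹‖ = ‖(ℓ : PadicAlgCl ℓ)‖⁻¹ := by rw [norm_inv, h1]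
      show 1 < ‖(ℓ : E)⁻¹‖
      rw [h4]
      exact (one_lt_inv₀ h2).2 h3 }

noncomputable instance naE (E : IntermediateField ℚ_[ℓ] (PadicAlgCl ℓ)) : NormedAlgebra E (PadicAlgCl ℓ) where
  norm_smul_le a x := by
    rw [Algebra.smul_def, norm_mul]
    exact le_rfl

/-- the extension of two finite extensions -/
noncomputable abbrev naEE {E₁ E₂ : IntermediateField ℚ_[ℓ] (PadicAlgCl ℓ)} (h : E₁ ≤ E₂) : NormedAlgebra E₁ E₂ :=
  { (IntermediateField.inclusion h).toRingHom.toAlgebra with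
    norm_smul_le := fun a x => by
      show ‖((a : PadicAlgCl ℓ) * (x : PadicAlgCl ℓ))‖ ≤ ‖(a : PadicAlgCl ℓ)‖ * ‖(x : PadicAlgCl ℓ)‖
      exact (norm_mul _ _).le }

instance proper_E (E : IntermediateField ℚ_[ℓ] (PadicAlgCl ℓ)) [FiniteDimensional ℚ_[ℓ] E] : ProperSpace E :=
  FiniteDimensional.proper ℚ_[ℓ] E

/-- the coordinates of the values are in one finite extension of `ℚ_ℓ` -/
def Fin1 {X : Type} {n : ℕ} (f : X → Fin n → PadicAlgCl ℓ) : Prop :=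
  ∃ E : IntermediateField ℚ_[ℓ] (PadicAlgCl ℓ), FiniteDimensional ℚ_[ℓ] E ∧ ∀ x i, f x i ∈ E

/-- the entries are in one finite extension of `ℚ_ℓ` -/
def Fin2 {X : Type} {n : ℕ} (f : X → Matrix (Fin n) (Fin n) (PadicAlgCl ℓ)) : Prop :=
  ∃ E : IntermediateField ℚ_[ℓ] (PadicAlgCl ℓ), FiniteDimensional ℚ_[ℓ] E ∧ ∀ x i j, f x i j ∈ E

theorem exists_field_matrix {n : ℕ} (M : Matrix (Fin n) (Fin n) (PadicAlgCl ℓ)) :
    ∃ E : IntermediateField ℚ_[ℓ] (PadicAlgCl ℓ), FiniteDimensional ℚ_[ℓ] E ∧ ∀ i j, M i j ∈ E := by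
  refine ⟨IntermediateField.adjoin ℚ_[ℓ] (Set.range fun p : Fin n × Fin n => M p.1 p.2), ?_, fun i j =>
    IntermediateField.subset_adjoin _ _ ⟨(i, j), rfl⟩⟩
  haveI : Finite (Set.range fun p : Fin n × Fin n => M p.1 p.2) := Set.finite_range _
  refine IntermediateField.finiteDimensional_adjoin fun x _ => ?_
  exact (Algebra.IsAlgebraic.isAlgebraic (R := ℚ_[ℓ]) x).isIntegral

theorem Fin2.mul {X : Type} {n : ℕ} {f g : X → Matrix (Fin n) (Fin n) (PadicAlgCl ℓ)} (hf : Fin2 f) (hg : Fin2 g) :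
    Fin2 fun x => f x * g x := by
  obtain ⟨E, hE, h1⟩ := hf
  obtain ⟨E', hE', h2⟩ := hg
  refine ⟨E ⊔ E', IntermediateField.finiteDimensional_sup E E', fun x i j => ?_⟩
  show (f x * g x) i j ∈ E ⊔ E'
  rw [Matrix.mul_apply]
  exact sum_mem fun k _ => mul_mem ((le_sup_left : E ≤ E ⊔ E') (h1 x i k)) ((le_sup_right : E' ≤ E ⊔ E') (h2 x k j))

theorem Fin2.const {X : Type} {n : ℕ} (M : Matrix (Fin n) (Fin n) (PadicAlgCl ℓ)) : Fin2 fun _ : X => M := by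
  obtain ⟨E, hE, h⟩ := exists_field_matrix M
  exact ⟨E, hE, fun _ => h⟩

theorem Fin1.mulVec {X : Type} {n : ℕ} (M : Matrix (Fin n) (Fin n) (PadicAlgCl ℓ)) {f : X → Fin n → PadicAlgCl ℓ}
    (hf : Fin1 f) : Fin1 fun x => M *ᵥ f x := by
  obtain ⟨E, hE, h1⟩ := exists_field_matrix M
  obtain ⟨E', hE', h2⟩ := hf
  refine ⟨E ⊔ E', IntermediateField.finiteDimensional_sup E E', fun x i => ?_⟩
  show ∑ k, M i k * f x k ∈ E ⊔ E'
  exact sum_mem fun k _ => mul_mem ((le_sup_left : E ≤ E ⊔ E') (h1 i k)) ((le_sup_right : E' ≤ E ⊔ E') (h2 x k))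

/-- restriction of the field of coefficients of a homomorphism -/
noncomputable def resR {G : Type} [Group G] {n : ℕ} (ρ : G →* Matrix (Fin n) (Fin n) (PadicAlgCl ℓ))
    (E : IntermediateField ℚ_[ℓ] (PadicAlgCl ℓ)) (h : ∀ g i j, ρ g i j ∈ E) : G →* Matrix (Fin n) (Fin n) E where
  toFun g := Matrix.of fun i j => ⟨ρ g i j, h g i j⟩
  map_one' := by
    ext i j
    show ρ 1 i j = ((1 : Matrix (Fin n) (Fin n) E) i j : PadicAlgCl ℓ)
    rw [map_one, Matrix.one_apply, Matrix.one_apply]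
    split_ifs <;> rfl
  map_mul' g g' := by
    ext i j
    show ρ (g * g') i j = ((∑ k, (⟨ρ g i k, h g i k⟩ : E) * ⟨ρ g' k j, h g' k j⟩ : E) : PadicAlgCl ℓ)
    rw [map_mul, Matrix.mul_apply, IntermediateField.coe_sum]
    rfl

theorem upR_resR {G : Type} [Group G] {n : ℕ} (ρ : G →* Matrix (Fin n) (Fin n) (PadicAlgCl ℓ))
    (E : IntermediateField ℚ_[ℓ] (PadicAlgCl ℓ)) (h : ∀ g i j, ρ g i j ∈ E) :
    upR (PadicAlgCl ℓ) (resR ρ E h) = ρ := by
  ext g i j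
  rfl

end fields

/-- generation after an extension of the field -/
theorem span_descend {E L : Type} [NormedField E] [NormedField L] [NormedAlgebra E L] {G : Type} [Group G] {n : ℕ}
    [IsUltrametricDist E] [IsUltrametricDist L]
    (ρ : G →* Matrix (Fin n) (Fin n) E) (h : Submodule.span L (Set.range fun g => upR L ρ g) = ⊤) :
    Submodule.span E (Set.range fun g => ρ g) = ⊤ := by
  classical
  by_contra hne
  obtain ⟨M0, hM0⟩ : ∃ M, M ∉ Submodule.span E (Set.range fun g => ρ g) := by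
    by_contra hcon
    push Not at hcon
    exact hne (Submodule.eq_top_iff'.2 hcon)
  obtain ⟨f, hf0, hf⟩ := Submodule.exists_le_ker_of_notMem hM0
  let F : Matrix (Fin n) (Fin n) L →ₗ[L] L :=
    { toFun := fun M => ∑ i, ∑ j, M i j * algebraMap E L (f (Matrix.single i j 1))
      map_add' := fun M M' => by
        simp only [Matrix.add_apply, add_mul, Finset.sum_add_distrib]
      map_smul' := fun a M => by
        simp only [Matrix.smul_apply, smul_eq_mul, RingHom.id_apply, Finset.mul_sum, mul_assoc] }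
  have hF : ∀ M : Matrix (Fin n) (Fin n) E, F (M.map (algebraMap E L)) = algebraMap E L (f M) := by
    intro M
    show ∑ i, ∑ j, algebraMap E L (M i j) * algebraMap E L (f (Matrix.single i j 1)) = _
    conv_rhs => rw [Matrix.matrix_eq_sum_single M]
    simp only [map_sum]
    refine Finset.sum_congr rfl fun i _ => Finset.sum_congr rfl fun j _ => ?_
    rw [← map_mul]
    congr 1
    have : Matrix.single i j (M i j) = M i j • Matrix.single i j (1 : E) := by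
      rw [Matrix.smul_single, smul_eq_mul, mul_one]
    rw [this, map_smul, smul_eq_mul]
  have hker : Submodule.span L (Set.range fun g => upR L ρ g) ≤ LinearMap.ker F := by
    rw [Submodule.span_le]
    rintro _ ⟨g, rfl⟩
    show F ((ρ g).map (algebraMap E L)) = 0
    rw [hF, show f (ρ g) = 0 from hf (Submodule.subset_span ⟨g, rfl⟩), map_zero]
  rw [h, top_le_iff] at hker
  have h1 : F (M0.map (algebraMap E L)) = 0 := by
    have : M0.map (algebraMap E L) ∈ LinearMap.ker F := by rw [hker]; exact Submodule.mem_top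
    exact this
  rw [hF] at h1
  exact hf0 ((algebraMap E L).injective (h1.trans (map_zero _).symm))

section gal

variable {K : Type} [Field K] [NumberField K] {ℓ : ℕ} [Fact ℓ.Prime] {n : ℕ}

/-- the elements of the inertia groups outside `S` -/
def Inr (S : Set (HeightOneSpectrum (𝓞 K))) : Set (GK K) := {σ | ∃ v, v ∉ S ∧ IsInert v σ}

theorem hmfin (S : Set (HeightOneSpectrum (𝓞 K))) (hS : S.Finite) : HMFin (GK K) (Inr S) := by
  intro D
  refine (finite_open S hS D).subset ?_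
  rintro H ⟨h1, h2, h3⟩
  exact ⟨h1, h2, fun v hv σ hσ => h3 ⟨v, hv, hσ⟩⟩

/-- the dimension of the Selmer group over the algebraic closure of `ℚ_ℓ` is at most `d` -/
def RankF (ρ : GK K →* Matrix (Fin n) (Fin n) (PadicAlgCl ℓ)) (S : Set (HeightOneSpectrum (𝓞 K))) {ι : Type}
    (D : ι → Set (GK K)) (d : ℕ) : Prop :=
  ∀ c : Fin (d + 1) → GK K → Fin n → PadicAlgCl ℓ, (∀ i, c i ∈ CocM ρ (Inr S) D ∧ Fin1 (c i)) →
    ∃ a : Fin (d + 1) → PadicAlgCl ℓ, a ≠ 0 ∧ ∑ i, a i • c i ∈ LinearMap.range (cob ρ)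

/-- conjugation -/
noncomputable def cj (X : GL (Fin n) (PadicAlgCl ℓ)) (ρ : GK K →* Matrix (Fin n) (Fin n) (PadicAlgCl ℓ)) :
    GK K →* Matrix (Fin n) (Fin n) (PadicAlgCl ℓ) where
  toFun g := ((X⁻¹ : GL (Fin n) (PadicAlgCl ℓ)) : Matrix (Fin n) (Fin n) (PadicAlgCl ℓ)) * ρ g *
    (X : Matrix (Fin n) (Fin n) (PadicAlgCl ℓ))
  map_one' := by
    rw [map_one, mul_one, ← Units.val_mul, inv_mul_cancel, Units.val_one]
  map_mul' g h := by
    rw [map_mul]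
    have : (X : Matrix (Fin n) (Fin n) (PadicAlgCl ℓ)) * ((X⁻¹ : GL (Fin n) (PadicAlgCl ℓ)) :
      Matrix (Fin n) (Fin n) (PadicAlgCl ℓ)) = 1 := by rw [← Units.val_mul, mul_inv_cancel, Units.val_one]
    calc _ = ((X⁻¹ : GL (Fin n) (PadicAlgCl ℓ)) : Matrix (Fin n) (Fin n) (PadicAlgCl ℓ)) * ρ g * 1 * (ρ h *
        (X : Matrix (Fin n) (Fin n) (PadicAlgCl ℓ))) := by rw [mul_one, mul_assoc, mul_assoc, mul_assoc]
      _ = _ := by rw [← this]; simp only [mul_assoc]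

theorem cj_apply (X : GL (Fin n) (PadicAlgCl ℓ)) (ρ : GK K →* Matrix (Fin n) (Fin n) (PadicAlgCl ℓ)) (g : GK K) :
    cj X ρ g = ((X⁻¹ : GL (Fin n) (PadicAlgCl ℓ)) : Matrix (Fin n) (Fin n) (PadicAlgCl ℓ)) * ρ g *
      (X : Matrix (Fin n) (Fin n) (PadicAlgCl ℓ)) := rfl

/-- the inverse matrix -/
noncomputable abbrev iv (X : GL (Fin n) (PadicAlgCl ℓ)) : Matrix (Fin n) (Fin n) (PadicAlgCl ℓ) :=
  ((X⁻¹ : GL (Fin n) (PadicAlgCl ℓ)) : Matrix (Fin n) (Fin n) (PadicAlgCl ℓ))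

theorem iv_mul (X : GL (Fin n) (PadicAlgCl ℓ)) : iv X * (X : Matrix (Fin n) (Fin n) (PadicAlgCl ℓ)) = 1 := by
  rw [← Units.val_mul, inv_mul_cancel, Units.val_one]

theorem mul_iv (X : GL (Fin n) (PadicAlgCl ℓ)) : (X : Matrix (Fin n) (Fin n) (PadicAlgCl ℓ)) * iv X = 1 := by
  rw [← Units.val_mul, mul_inv_cancel, Units.val_one]

theorem cj_mulVec (X : GL (Fin n) (PadicAlgCl ℓ)) (ρ : GK K →* Matrix (Fin n) (Fin n) (PadicAlgCl ℓ)) (g : GK K)
    (x : Fin n → PadicAlgCl ℓ) : cj X ρ g *ᵥ (iv X *ᵥ x) = iv X *ᵥ (ρ g *ᵥ x) := by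
  rw [cj_apply, Matrix.mulVec_mulVec, Matrix.mulVec_mulVec]
  congr 1
  rw [mul_assoc, mul_iv, mul_one]

theorem cj_coc {X : GL (Fin n) (PadicAlgCl ℓ)} {ρ : GK K →* Matrix (Fin n) (Fin n) (PadicAlgCl ℓ)}
    {I : Set (GK K)} {ι : Type} {D : ι → Set (GK K)} {c : GK K → Fin n → PadicAlgCl ℓ} (hc : c ∈ CocM ρ I D) :
    (fun g => iv X *ᵥ c g) ∈ CocM (cj X ρ) I D := by
  obtain ⟨h1, h2, h3, h4⟩ := hc
  refine ⟨continuous_const.matrix_mulVec h1, fun g h => ?_, fun g hg => ?_, fun i => ?_⟩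
  · show iv X *ᵥ c (g * h) = _
    rw [h2, Matrix.mulVec_add, cj_mulVec]
  · show iv X *ᵥ c g = 0
    rw [h3 g hg, Matrix.mulVec_zero]
  · obtain ⟨x, hx⟩ := h4 i
    refine ⟨iv X *ᵥ x, fun d hd => ?_⟩
    show iv X *ᵥ c d = _
    rw [hx d hd, Matrix.mulVec_sub, cj_mulVec]

theorem rankF_of_cj {X : GL (Fin n) (PadicAlgCl ℓ)} {ρ : GK K →* Matrix (Fin n) (Fin n) (PadicAlgCl ℓ)}
    {S : Set (HeightOneSpectrum (𝓞 K))} {ι : Type} {D : ι → Set (GK K)} {d : ℕ} (h : RankF (cj X ρ) S D d) :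
    RankF ρ S D d := by
  intro c hc
  obtain ⟨a, ha, x, hx⟩ := h (fun i g => iv X *ᵥ c i g) fun i => ⟨cj_coc (hc i).1, (hc i).2.mulVec _⟩
  refine ⟨a, ha, (X : Matrix (Fin n) (Fin n) (PadicAlgCl ℓ)) *ᵥ x, ?_⟩
  funext g
  have h1 := congrFun hx g
  have h2 := congrArg (fun v => (X : Matrix (Fin n) (Fin n) (PadicAlgCl ℓ)) *ᵥ v) h1
  simp only [cob_apply] at h2
  rw [cob_apply]
  rw [Matrix.mulVec_sub, Matrix.mulVec_mulVec, cj_apply, ← mul_assoc, ← mul_assoc, mul_iv, one_mul,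
    ← Matrix.mulVec_mulVec, Finset.sum_apply, Matrix.mulVec_sum] at h2
  rw [h2, Finset.sum_apply]
  refine Finset.sum_congr rfl fun i _ => ?_
  show (X : Matrix (Fin n) (Fin n) (PadicAlgCl ℓ)) *ᵥ (a i • (iv X *ᵥ c i g)) = a i • c i g
  rw [Matrix.mulVec_smul, Matrix.mulVec_mulVec, mul_iv, Matrix.one_mulVec]

theorem cj_cj (X : GL (Fin n) (PadicAlgCl ℓ)) (ρ : GK K →* Matrix (Fin n) (Fin n) (PadicAlgCl ℓ)) :
    cj X⁻¹ (cj X ρ) = ρ := by
  ext g : 1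
  rw [cj_apply, cj_apply, inv_inv, ← mul_assoc, ← mul_assoc]
  have h1 : (X : Matrix (Fin n) (Fin n) (PadicAlgCl ℓ)) * ((X⁻¹ : GL (Fin n) (PadicAlgCl ℓ)) :
    Matrix (Fin n) (Fin n) (PadicAlgCl ℓ)) = 1 := mul_iv X
  rw [h1, one_mul, mul_assoc, h1, mul_one]

theorem rankF_cj {X : GL (Fin n) (PadicAlgCl ℓ)} {ρ : GK K →* Matrix (Fin n) (Fin n) (PadicAlgCl ℓ)}
    {S : Set (HeightOneSpectrum (𝓞 K))} {ι : Type} {D : ι → Set (GK K)} {d : ℕ} (h : RankF ρ S D d) :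
    RankF (cj X ρ) S D d := by
  refine rankF_of_cj (X := X⁻¹) ?_
  rwa [cj_cj]

theorem finrank_cj (X : GL (Fin n) (PadicAlgCl ℓ)) (ρ : GK K →* Matrix (Fin n) (Fin n) (PadicAlgCl ℓ))
    (D : Set (GK K)) : finrank (PadicAlgCl ℓ) (invM (cj X ρ) D) = finrank (PadicAlgCl ℓ) (invM ρ D) := by
  refine LinearEquiv.finrank_eq (LinearEquiv.ofLinear
    (((Matrix.toLin' (X : Matrix (Fin n) (Fin n) (PadicAlgCl ℓ))).domRestrict (invM (cj X ρ) D)).codRestrict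
      (invM ρ D) ?_)
    (((Matrix.toLin' (iv X)).domRestrict (invM ρ D)).codRestrict (invM (cj X ρ) D) ?_) ?_ ?_)
  · rintro ⟨x, hx⟩ d hd
    rw [LinearMap.domRestrict_apply, Matrix.toLin'_apply]
    have h1 : (X : Matrix (Fin n) (Fin n) (PadicAlgCl ℓ)) *ᵥ (cj X ρ d *ᵥ x) =
        (X : Matrix (Fin n) (Fin n) (PadicAlgCl ℓ)) *ᵥ x := by rw [hx d hd]
    rw [Matrix.mulVec_mulVec, cj_apply, ← mul_assoc, ← mul_assoc, mul_iv, one_mul, ← Matrix.mulVec_mulVec] at h1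
    exact h1
  · rintro ⟨x, hx⟩ d hd
    rw [LinearMap.domRestrict_apply, Matrix.toLin'_apply, cj_mulVec, hx d hd]
  · ext x : 2
    show (Matrix.toLin' (X : Matrix (Fin n) (Fin n) (PadicAlgCl ℓ))) ((Matrix.toLin' (iv X)) x.1) = x.1
    rw [Matrix.toLin'_apply, Matrix.toLin'_apply, Matrix.mulVec_mulVec, mul_iv, Matrix.one_mulVec]
  · ext x : 2
    show (Matrix.toLin' (iv X)) ((Matrix.toLin' (X : Matrix (Fin n) (Fin n) (PadicAlgCl ℓ))) x.1) = x.1
    rw [Matrix.toLin'_apply, Matrix.toLin'_apply, Matrix.mulVec_mulVec, iv_mul, Matrix.one_mulVec]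

end gal

end Pool.Agent.H499.SM
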