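import Pool.Agent.H499.SM.Gal

/-! Semicontinuity over the algebraic closure of `ℚ_ℓ`. -/

set_option autoImplicit false
set_option linter.all false

namespace Pool.Agent.H499.SM

open Matrix Filter Topology Module NumberField IsDedekindDomain
open Pool.Agent.W401.Cheb (GK IsFrob IsInert)
open Pool.Agent.H499.CM Pool.Agent.H499.PW Pool.Agent.H499.IR

variable {K : Type} [Field K] [NumberField K] {ℓ : ℕ} [Fact ℓ.Prime] {n : ℕ}

theorem fin_iSup {m : ℕ} (E : Fin m → IntermediateField ℚ_[ℓ] (PadicAlgCl ℓ))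
    (h : ∀ i, FiniteDimensional ℚ_[ℓ] (E i)) : FiniteDimensional ℚ_[ℓ] (⨆ i, E i : IntermediateField ℚ_[ℓ]
      (PadicAlgCl ℓ)) := by
  haveI := h
  exact IntermediateField.finiteDimensional_iSup_of_finite

/-- representations near `ρ` -/
theorem near_rank {S : Set (HeightOneSpectrum (𝓞 K))} (hS : S.Finite) (hn : 0 < n)
    {ρ : GK K →* Matrix (Fin n) (Fin n) (PadicAlgCl ℓ)} (hfin : Fin2 fun g => ρ g)
    (hρ : ∀ i j, Continuous fun g => ρ g i j) (h1 : ∀ g i j, ‖ρ g i j‖ ≤ 1) (hρI : ∀ g ∈ Inr S, ρ g = 1)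
    (hspan : Submodule.span (PadicAlgCl ℓ) (Set.range fun g => ρ g) = ⊤) {ι : Type} [Finite ι]
    (D : ι → Set (GK K)) {d : ℕ} (hd : RankF ρ S D d) :
    ∃ ε : ℝ, 0 < ε ∧ ∀ ρ' : GK K →* Matrix (Fin n) (Fin n) (PadicAlgCl ℓ), (Fin2 fun g => ρ' g) →
      (∀ i j, Continuous fun g => ρ' g i j) → (∀ g i j, ‖ρ' g i j‖ ≤ 1) → (∀ g ∈ Inr S, ρ' g = 1) →
      (∀ g, ‖(ρ' g).trace - (ρ g).trace‖ ≤ ε) →
      (∀ i, finrank (PadicAlgCl ℓ) (invM ρ (D i)) ≤ finrank (PadicAlgCl ℓ) (invM ρ' (D i))) →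
      RankF ρ' S D d := by
  classical
  obtain ⟨E₁, hE₁, hE₁ρ⟩ := hfin
  haveI := hE₁
  set ρ₁ : GK K →* Matrix (Fin n) (Fin n) E₁ := resR ρ E₁ hE₁ρ with hρ₁
  have hup : upR (PadicAlgCl ℓ) ρ₁ = ρ := upR_resR ρ E₁ hE₁ρ
  have hc₁ : ∀ i j, Continuous fun g => ρ₁ g i j := fun i j => (hρ i j).subtype_mk _
  have h1₁ : ∀ g i j, ‖ρ₁ g i j‖ ≤ 1 := fun g i j => h1 g i j
  have hI₁ : ∀ g ∈ Inr S, ρ₁ g = 1 := by
    intro g hg
    ext i j
    have h2 : ρ g i j = (1 : Matrix (Fin n) (Fin n) (PadicAlgCl ℓ)) i j := by rw [hρI g hg]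
    show ρ g i j = (((1 : Matrix (Fin n) (Fin n) E₁) i j : E₁) : PadicAlgCl ℓ)
    rw [h2, Matrix.one_apply, Matrix.one_apply]
    split_ifs <;> rfl
  have hd₁ : RankLE ρ₁ (Inr S) D d := by
    refine rankLE_of_rank (L := PadicAlgCl ℓ) Fin1 (fun c => ⟨E₁, hE₁, fun x i => (c x i).2⟩) ?_
    rw [hup]
    exact hd
  have hspan₁ : Submodule.span E₁ (Set.range fun g => ρ₁ g) = ⊤ := by
    refine span_descend (L := PadicAlgCl ℓ) ρ₁ ?_
    rw [hup]
    exact hspan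
  obtain ⟨ε₁, hε₁, hrank⟩ := rank_le Pool.Agent.H122.SM.orth Pool.Agent.H230.SM.t_LIM (hmfin S hS) hc₁ h1₁ hI₁ D hd₁
  obtain ⟨C, hC, hconj⟩ := t_CONJ E₁ (GK K) n hn ρ₁ h1₁ hspan₁ 1
  set ε : ℝ := min ε₁ (1 / 2) / C with hε
  have hε0 : 0 < ε := div_pos (lt_min hε₁ (by norm_num)) hC
  have hCε : C * ε = min ε₁ (1 / 2) := mul_div_cancel₀ _ hC.ne'
  refine ⟨ε, hε0, fun ρ' hfin' hρ' h1' hI' htr hdim => ?_⟩
  obtain ⟨X, hX⟩ := hconj (PadicAlgCl ℓ) ρ' h1' ε (by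
    rw [hCε]
    exact lt_of_le_of_lt (min_le_right _ _) (by norm_num)) (fun g => by
      have h2 : algebraMap E₁ (PadicAlgCl ℓ) (ρ₁ g).trace = (ρ g).trace := by
        rw [Matrix.trace, Matrix.trace, map_sum]
        rfl
      rw [h2]
      exact htr g)
  set ρ'' := cj X ρ' with hρ''
  refine rankF_of_cj (X := X) ?_
  have hnear : ∀ g i j, ‖ρ'' g i j - ρ g i j‖ ≤ ε₁ := fun g i j =>
    (hX g i j).trans (hCε.le.trans (min_le_left _ _))
  have hc'' : ∀ i j, Continuous fun g => ρ'' g i j := by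
    intro i j
    have h2 : Continuous fun g => ρ' g := continuous_matrix hρ'
    have h3 : Continuous fun g => ρ'' g := (continuous_const.matrix_mul h2).matrix_mul continuous_const
    exact h3.matrix_elem i j
  have hI'' : ∀ g ∈ Inr S, ρ'' g = 1 := by
    intro g hg
    rw [hρ'', cj_apply, hI' g hg, mul_one]
    exact iv_mul X
  have hfin'' : Fin2 fun g => ρ'' g := ((Fin2.const _).mul hfin').mul (Fin2.const _)
  obtain ⟨E₃, hE₃, hE₃ρ⟩ := hfin''
  intro c hc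
  choose E hE hcE using fun i => (hc i).2
  set E₂ : IntermediateField ℚ_[ℓ] (PadicAlgCl ℓ) := E₁ ⊔ E₃ ⊔ ⨆ i, E i with hE₂
  haveI := hE₃
  haveI := fin_iSup E hE
  haveI hfd : FiniteDimensional ℚ_[ℓ] E₂ := by
    haveI := IntermediateField.finiteDimensional_sup E₁ E₃
    exact IntermediateField.finiteDimensional_sup (E₁ ⊔ E₃) (⨆ i, E i)
  have h12 : E₁ ≤ E₂ := le_sup_left.trans le_sup_left
  have h32 : E₃ ≤ E₂ := le_sup_right.trans le_sup_left
  have hi2 : ∀ i, E i ≤ E₂ := fun i => (le_iSup E i).trans le_sup_right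
  letI := naEE h12
  haveI : IsScalarTower ℚ_[ℓ] E₁ E₂ := IsScalarTower.of_algebraMap_eq fun x => rfl
  haveI : FiniteDimensional E₁ E₂ := FiniteDimensional.right ℚ_[ℓ] E₁ E₂
  set ρ₂ : GK K →* Matrix (Fin n) (Fin n) E₂ := resR ρ'' E₂ (fun g i j => h32 (hE₃ρ g i j)) with hρ₂
  have hup₂ : upR (PadicAlgCl ℓ) ρ₂ = ρ'' := upR_resR _ _ _
  have hI₂ : ∀ g ∈ Inr S, ρ₂ g = 1 := by
    intro g hg
    ext i j
    have h2 : ρ'' g i j = (1 : Matrix (Fin n) (Fin n) (PadicAlgCl ℓ)) i j := by rw [hI'' g hg]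
    show ρ'' g i j = (((1 : Matrix (Fin n) (Fin n) E₂) i j : E₂) : PadicAlgCl ℓ)
    rw [h2, Matrix.one_apply, Matrix.one_apply]
    split_ifs <;> rfl
  have hrk := hrank E₂ ρ₂ (fun i j => (hc'' i j).subtype_mk _) hI₂ (fun g i j => hnear g i j) (fun i => by
    rw [finrank_inv (L := PadicAlgCl ℓ) ρ₁, finrank_inv (L := PadicAlgCl ℓ) ρ₂, hup, hup₂, finrank_cj]
    exact hdim i)
  have hcc : ∀ i g k, c i g k ∈ E₂ := fun i g k => hi2 i (hcE i g k)
  have hcont : ∀ i, Continuous fun g => (fun k => (⟨c i g k, hcc i g k⟩ : E₂)) := by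
    intro i
    have h2 := (hc i).1.1
    exact continuous_pi fun k => ((continuous_apply k).comp h2).subtype_mk _
  have := rank_of_rankLE (L := PadicAlgCl ℓ) hrk (fun i g k => (⟨c i g k, hcc i g k⟩ : E₂)) hcont (fun i => by
    rw [hup₂]
    exact (hc i).1)
  rw [hup₂] at this
  exact this

/-- the Selmer groups are finite dimensional -/
theorem exists_rank {S : Set (HeightOneSpectrum (𝓞 K))} (hS : S.Finite)
    {ρ : GK K →* Matrix (Fin n) (Fin n) (PadicAlgCl ℓ)} (hfin : Fin2 fun g => ρ g)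
    (hρ : ∀ i j, Continuous fun g => ρ g i j) (h1 : ∀ g i j, ‖ρ g i j‖ ≤ 1) (hρI : ∀ g ∈ Inr S, ρ g = 1)
    {ι : Type} (D : ι → Set (GK K)) : ∃ r, RankF ρ S D r := by
  classical
  obtain ⟨E₁, hE₁, hE₁ρ⟩ := hfin
  haveI := hE₁
  set ρ₁ : GK K →* Matrix (Fin n) (Fin n) E₁ := resR ρ E₁ hE₁ρ with hρ₁
  have hup : upR (PadicAlgCl ℓ) ρ₁ = ρ := upR_resR ρ E₁ hE₁ρ
  have hc₁ : ∀ i j, Continuous fun g => ρ₁ g i j := fun i j => (hρ i j).subtype_mk _
  have h1₁ : ∀ g i j, ‖ρ₁ g i j‖ ≤ 1 := fun g i j => h1 g i j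
  have hI₁ : ∀ g ∈ Inr S, ρ₁ g = 1 := by
    intro g hg
    ext i j
    have h2 : ρ g i j = (1 : Matrix (Fin n) (Fin n) (PadicAlgCl ℓ)) i j := by rw [hρI g hg]
    show ρ g i j = (((1 : Matrix (Fin n) (Fin n) E₁) i j : E₁) : PadicAlgCl ℓ)
    rw [h2, Matrix.one_apply, Matrix.one_apply]
    split_ifs <;> rfl
  obtain ⟨r, hr⟩ := Pool.Agent.H230.SM.t_FD E₁ (Fin n → E₁) (GK K) (Inr S) (hmfin S hS) (actM ρ₁) (actM_act hc₁ h1₁)
  set D0 : Empty → Set (GK K) := fun i => i.elim with hD0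
  have hR : RankLE ρ₁ (Inr S) D0 r := by
    intro c hc
    obtain ⟨a, ha, h⟩ := hr c fun i => ⟨(hc i).1, fun g h => by rw [actM_apply]; exact (hc i).2.1 g h, (hc i).2.2.1⟩
    refine ⟨a, ha, 0, ?_⟩
    rw [map_zero]
    funext g
    rw [Finset.sum_apply]
    exact (h g).symm
  refine ⟨r, fun c hc => ?_⟩
  choose E hE hcE using fun i => (hc i).2
  set F : Submodule E₁ (PadicAlgCl ℓ) := Submodule.span E₁ (((⨆ i, E i : IntermediateField ℚ_[ℓ] (PadicAlgCl ℓ)) :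
    Set (PadicAlgCl ℓ))) with hF
  haveI := fin_iSup E hE
  haveI hFfd : FiniteDimensional E₁ F := by
    set b := Module.finBasis ℚ_[ℓ] (⨆ i, E i : IntermediateField ℚ_[ℓ] (PadicAlgCl ℓ)) with hb
    have h2 : F ≤ Submodule.span E₁ (Set.range fun i => ((b i : (⨆ i, E i : IntermediateField ℚ_[ℓ]
        (PadicAlgCl ℓ))) : PadicAlgCl ℓ)) := by
      rw [hF, Submodule.span_le]
      intro y hy
      have h3 := b.sum_repr ⟨y, hy⟩
      have h4 := congrArg Subtype.val h3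
      rw [IntermediateField.coe_sum] at h4
      show ((⟨y, hy⟩ : (⨆ i, E i : IntermediateField ℚ_[ℓ] (PadicAlgCl ℓ))) : PadicAlgCl ℓ) ∈ Submodule.span E₁ _
      rw [← h4]
      refine Submodule.sum_mem _ fun i _ => ?_
      have h5 : ((b.repr ⟨y, hy⟩ i • b i : (⨆ i, E i : IntermediateField ℚ_[ℓ] (PadicAlgCl ℓ))) : PadicAlgCl ℓ) =
          (algebraMap ℚ_[ℓ] E₁ (b.repr ⟨y, hy⟩ i)) • ((b i : (⨆ i, E i : IntermediateField ℚ_[ℓ]
            (PadicAlgCl ℓ))) : PadicAlgCl ℓ) := by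
        rw [IntermediateField.coe_smul, algebraMap_smul]
      rw [h5]
      exact Submodule.smul_mem _ _ (Submodule.subset_span ⟨i, rfl⟩)
    haveI : FiniteDimensional E₁ (Submodule.span E₁ (Set.range fun i => ((b i : (⨆ i, E i : IntermediateField ℚ_[ℓ]
        (PadicAlgCl ℓ))) : PadicAlgCl ℓ))) := FiniteDimensional.span_of_finite E₁ (Set.finite_range _)
    exact Submodule.finiteDimensional_of_le h2
  have hcF : ∀ i g k, c i g k ∈ F := fun i g k =>
    Submodule.subset_span ((le_iSup E i : E i ≤ ⨆ i, E i) (hcE i g k))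
  set e := Module.finBasis E₁ F with he
  choose π hπ using fun j => LinearMap.exists_extend (e.coord j)
  have hsum : ∀ i g, c i g = ∑ j, (e j : PadicAlgCl ℓ) • up (PadicAlgCl ℓ) (lam (π j) (c i g)) := by
    intro i g
    funext k
    have h1 := e.sum_repr ⟨c i g k, hcF i g k⟩
    have h2 := congrArg Subtype.val h1
    rw [Finset.sum_apply]
    rw [Submodule.coe_sum] at h2
    rw [show c i g k = ∑ j, ((e.repr ⟨c i g k, hcF i g k⟩ j • e j : F) : PadicAlgCl ℓ) from h2.symm]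
    refine Finset.sum_congr rfl fun j _ => ?_
    have h3 : π j (c i g k) = e.repr ⟨c i g k, hcF i g k⟩ j := LinearMap.congr_fun (hπ j) ⟨c i g k, hcF i g k⟩
    show e.repr ⟨c i g k, hcF i g k⟩ j • (e j : PadicAlgCl ℓ) = (e j : PadicAlgCl ℓ) *
      algebraMap E₁ (PadicAlgCl ℓ) (π j (c i g k))
    rw [h3, Algebra.smul_def, mul_comm]
  have hcoc : ∀ i j, (fun g => lam (π j) (c i g)) ∈ CocM ρ₁ (Inr S) D0 := by
    intro i j
    obtain ⟨h2, h3, h4, -⟩ := (hc i).1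
    refine ⟨?_, fun g h => ?_, fun g hg => ?_, fun i => i.elim⟩
    · refine continuous_pi fun k => ?_
      have h5 : Continuous fun g => (⟨c i g k, hcF i g k⟩ : F) := ((continuous_apply k).comp h2).subtype_mk _
      have h6 : Continuous (e.coord j) := LinearMap.continuous_of_finiteDimensional (e.coord j)
      have h7 : (fun g => lam (π j) (c i g) k) = fun g => e.coord j ⟨c i g k, hcF i g k⟩ := by
        funext g
        exact LinearMap.congr_fun (hπ j) ⟨c i g k, hcF i g k⟩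
      rw [h7]
      exact h6.comp h5
    · show lam (π j) (c i (g * h)) = _
      rw [h3, map_add]
      congr 1
      have h8 : ρ g = (ρ₁ g).map (algebraMap E₁ (PadicAlgCl ℓ)) := by
        have := congrArg (fun r : GK K →* Matrix (Fin n) (Fin n) (PadicAlgCl ℓ) => r g) hup
        exact this.symm
      rw [h8, lam_mulVec]
    · show lam (π j) (c i g) = 0
      rw [h4 g hg, map_zero]
  obtain ⟨a, ha, x, hx⟩ := exists_relation (L := PadicAlgCl ℓ) (fun x => cob_mem hc₁ hI₁ D0 x) hR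
    (fun j => (e j : PadicAlgCl ℓ)) (fun i j g => lam (π j) (c i g)) hcoc
  refine ⟨a, ha, x, ?_⟩
  funext g
  have h9 : cob ρ x g = (ρ₁ g).map (algebraMap E₁ (PadicAlgCl ℓ)) *ᵥ x - x := rfl
  rw [h9, ← hx g, Finset.sum_apply]
  refine Finset.sum_congr rfl fun i _ => ?_
  rw [Pi.smul_apply, ← hsum i g]

end Pool.Agent.H499.SM
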