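import Pool.Agent.H499.SM.Bnd

/-! **Upper semicontinuity of the dimension of the Selmer group**, uniformly in the field of coefficients. -/

set_option autoImplicit false
set_option linter.all false

namespace Pool.Agent.H499.SM

open Matrix Filter Topology Module

/-- a relation over the extension field -/
theorem exists_relation {E L : Type} [NormedField E] [NormedField L] [NormedAlgebra E L] [IsUltrametricDist E]
    [IsUltrametricDist L] {G : Type} [Group G] [TopologicalSpace G] {n : ℕ} {ρ : G →* Matrix (Fin n) (Fin n) E} {I : Set G} {ι : Type}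
    {D : ι → Set G} (hcob : ∀ x, cob ρ x ∈ CocM ρ I D) {d : ℕ} (hd : RankLE ρ I D d) {r : ℕ} (e : Fin r → L)
    (c : Fin (d + 1) → Fin r → G → Fin n → E) (hc : ∀ i j, c i j ∈ CocM ρ I D) :
    ∃ a : Fin (d + 1) → L, a ≠ 0 ∧ ∃ x : Fin n → L, ∀ g,
      ∑ i, a i • ∑ j, e j • up L (c i j g) = (ρ g).map (algebraMap E L) *ᵥ x - x := by
  classical
  set M := CocM ρ I D with hM
  set B : Submodule E M := (LinearMap.range (cob ρ)).comap M.subtype with hB
  have hrank : Module.rank E (M ⧸ B) ≤ d := by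
    refine rank_le fun s hs => ?_
    by_contra hcon
    push Not at hcon
    obtain ⟨t, ht, htc⟩ := Finset.exists_subset_card_eq (Nat.succ_le_of_lt hcon)
    have hinj : Function.Injective fun i : Fin (d + 1) => (⟨(t.equivFin.symm (Fin.cast htc.symm i) : M ⧸ B),
        ht (t.equivFin.symm (Fin.cast htc.symm i)).2⟩ : s) := by
      intro i j hij
      have h1 := congrArg (fun z : s => (z : M ⧸ B)) hij
      have h2 : t.equivFin.symm (Fin.cast htc.symm i) = t.equivFin.symm (Fin.cast htc.symm j) := Subtype.ext h1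
      have h3 := t.equivFin.symm.injective h2
      exact Fin.cast_injective _ h3
    have hli := hs.comp _ hinj
    choose z hz using fun i : Fin (d + 1) => Submodule.Quotient.mk_surjective B
      (t.equivFin.symm (Fin.cast htc.symm i) : M ⧸ B)
    obtain ⟨a, ha, hrel⟩ := hd (fun i => (z i : G → Fin n → E)) (fun i => (z i).2)
    apply ha
    have h1 : ∑ i, a i • z i ∈ B := by
      show ((∑ i, a i • z i : M) : G → Fin n → E) ∈ LinearMap.range (cob ρ)
      rw [Submodule.coe_sum]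
      exact hrel
    have h2 : ∑ i, a i • (Submodule.Quotient.mk (z i) : M ⧸ B) = 0 := by
      rw [← (Submodule.Quotient.mk_eq_zero B).2 h1]
      exact (map_sum B.mkQ (fun i => a i • z i) Finset.univ).symm
    have h3 := Fintype.linearIndependent_iff.1 hli a (by
      rw [← h2]
      exact Finset.sum_congr rfl fun i _ => by rw [hz i]; rfl)
    exact funext h3
  haveI : Module.Finite E (M ⧸ B) := by
    rw [← Module.rank_lt_aleph0_iff]
    exact lt_of_le_of_lt hrank (Cardinal.natCast_lt_aleph0 (n := d))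
  have hfr : finrank E (M ⧸ B) ≤ d := by
    have := Module.finrank_eq_rank E (M ⧸ B)
    rw [← this] at hrank
    exact_mod_cast hrank
  set b := Module.finBasis E (M ⧸ B) with hb
  choose y hy using fun k => Submodule.Quotient.mk_surjective B (b k)
  -- the coefficients
  set α : Fin (d + 1) → Fin r → Fin (finrank E (M ⧸ B)) → E := fun i j k =>
    b.repr (Submodule.Quotient.mk ⟨c i j, hc i j⟩) k with hα
  have hx : ∀ i j, ∃ x : Fin n → E, c i j = ∑ k, α i j k • (y k : G → Fin n → E) + cob ρ x := by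
    intro i j
    have h1 : (Submodule.Quotient.mk (⟨c i j, hc i j⟩ : M) : M ⧸ B) = Submodule.Quotient.mk (∑ k, α i j k • y k) := by
      have h2 : (Submodule.Quotient.mk (∑ k, α i j k • y k) : M ⧸ B) = ∑ k, α i j k • b k := by
        have h3 : (Submodule.Quotient.mk (∑ k, α i j k • y k) : M ⧸ B) =
            ∑ k, (Submodule.Quotient.mk (α i j k • y k) : M ⧸ B) :=
          map_sum B.mkQ (fun k => α i j k • y k) Finset.univ
        rw [h3]
        exact Finset.sum_congr rfl fun k _ => by rw [← hy k]; rfl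
      rw [h2]
      exact (b.sum_repr _).symm
    have h2 := (Submodule.Quotient.eq B).1 h1
    obtain ⟨x, hx⟩ := h2
    refine ⟨x, ?_⟩
    rw [hx]
    have h3 : ((∑ k, α i j k • y k : M) : G → Fin n → E) = ∑ k, α i j k • (y k : G → Fin n → E) := by
      rw [Submodule.coe_sum]
      rfl
    rw [← h3]
    show c i j = _ + (c i j - _)
    abel
  choose x hx using hx
  -- the relation
  set A : Fin (d + 1) → Fin (finrank E (M ⧸ B)) → L := fun i k => ∑ j, α i j k • e j with hA
  have hdep : ¬ LinearIndependent L A := by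
    intro h
    have h1 := h.fintype_card_le_finrank
    rw [Fintype.card_fin, Module.finrank_fin_fun] at h1
    omega
  rw [Fintype.linearIndependent_iff] at hdep
  push Not at hdep
  obtain ⟨a, ha, i0, hi0⟩ := hdep
  refine ⟨a, fun h => hi0 (by rw [h]; rfl), ∑ i, a i • ∑ j, e j • up L (x i j), fun g => ?_⟩
  have h1 : ∀ i j, up L (c i j g) = ∑ k, algebraMap E L (α i j k) • up L ((y k : G → Fin n → E) g) +
      ((ρ g).map (algebraMap E L) *ᵥ up L (x i j) - up L (x i j)) := by
    intro i j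
    rw [hx i j, Pi.add_apply, map_add, cob_apply, map_sub, up_mulVec]
    congr 1
    rw [Finset.sum_apply, map_sum]
    refine Finset.sum_congr rfl fun k _ => ?_
    rw [Pi.smul_apply, map_smul, algebraMap_smul]
  have h2 : ∀ i, ∑ j, e j • up L (c i j g) = ∑ k, A i k • up L ((y k : G → Fin n → E) g) +
      ((ρ g).map (algebraMap E L) *ᵥ (∑ j, e j • up L (x i j)) - ∑ j, e j • up L (x i j)) := by
    intro i
    simp only [h1, smul_add, Finset.sum_add_distrib, smul_sub, Finset.sum_sub_distrib]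
    congr 1
    · simp only [Finset.smul_sum]
      rw [Finset.sum_comm]
      refine Finset.sum_congr rfl fun k _ => ?_
      rw [hA, Finset.sum_smul]
      refine Finset.sum_congr rfl fun j _ => ?_
      rw [smul_smul, Algebra.smul_def (α i j k) (e j), mul_comm]
    · congr 1
      rw [Matrix.mulVec_sum]
      exact Finset.sum_congr rfl fun j _ => (Matrix.mulVec_smul _ _ _).symm
  have h3 : ∀ k, ∑ i, a i * A i k = 0 := fun k => by
    have := congrFun ha k
    rw [Finset.sum_apply] at this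
    simpa using this
  simp only [h2, smul_add, Finset.sum_add_distrib, smul_sub, Finset.sum_sub_distrib]
  have h4 : ∑ i, a i • ∑ k, A i k • up L ((y k : G → Fin n → E) g) = 0 := by
    simp only [Finset.smul_sum, smul_smul]
    rw [Finset.sum_comm]
    refine Finset.sum_eq_zero fun k _ => ?_
    rw [← Finset.sum_smul, h3 k, zero_smul]
  rw [h4, zero_add]
  congr 1
  rw [Matrix.mulVec_sum]
  exact Finset.sum_congr rfl fun i _ => (Matrix.mulVec_smul _ _ _).symm

/-- the coboundaries as continuous functions -/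
noncomputable def cobC {L : Type} [NormedField L] {G : Type} [Group G] [TopologicalSpace G] [CompactSpace G] {n : ℕ}
    (ρ' : G →* Matrix (Fin n) (Fin n) L) (h : ∀ i j, Continuous fun g => ρ' g i j) :
    (Fin n → L) →ₗ[L] C(G, Fin n → L) where
  toFun x := ⟨cob ρ' x, by
    have h1 : Continuous fun g => ρ' g := continuous_matrix h
    exact (h1.matrix_mulVec continuous_const).sub continuous_const⟩
  map_add' x y := by
    ext g
    exact congrFun (congrFun (map_add (cob ρ') x y) g) _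
  map_smul' a x := by
    ext g
    exact congrFun (congrFun (map_smul (cob ρ') a x) g) _

/-- **Semicontinuity.** -/
theorem rank_le (hORTH : S_ORTH) (hLIM : S_LIM) {E : Type} [NontriviallyNormedField E] [ProperSpace E]
    [IsUltrametricDist E] {G : Type} [Group G] [TopologicalSpace G] [IsTopologicalGroup G] [CompactSpace G]
    {I : Set G} (hI : HMFin G I) {n : ℕ} {ρ : G →* Matrix (Fin n) (Fin n) E}
    (hρ : ∀ i j, Continuous fun g => ρ g i j) (h1 : ∀ g i j, ‖ρ g i j‖ ≤ 1) (hρI : ∀ g ∈ I, ρ g = 1)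
    {ι : Type} [Finite ι] (D : ι → Set G) {d : ℕ} (hd : RankLE ρ I D d) :
    ∃ ε : ℝ, 0 < ε ∧ ∀ (L : Type) [NontriviallyNormedField L] [NormedAlgebra E L] [FiniteDimensional E L]
      [IsUltrametricDist L] (ρ' : G →* Matrix (Fin n) (Fin n) L), (∀ i j, Continuous fun g => ρ' g i j) →
      (∀ g ∈ I, ρ' g = 1) → (∀ g i j, ‖ρ' g i j - algebraMap E L (ρ g i j)‖ ≤ ε) →
      (∀ i, finrank E (invM ρ (D i)) ≤ finrank L (invM ρ' (D i))) → RankLE ρ' I D d := by
  classical
  obtain ⟨ϖ, hϖ0, hϖ1⟩ := NormedField.exists_norm_lt_one E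
  set q : ℝ := ‖ϖ‖⁻¹ with hq
  have hq0 : 0 < q := inv_pos.2 hϖ0
  have hq1 : 1 < q := (one_lt_inv₀ hϖ0).2 hϖ1
  -- complements
  choose W hW C' hC'0 hC' using fun i => compl_bound ρ (D i)
  obtain ⟨W0, hW0, C0, hC00, hC0⟩ := compl_bound ρ Set.univ
  obtain ⟨C1, hC1⟩ : ∃ C1 : ℝ, ∀ i, C' i ≤ C1 := (Set.finite_range C').bddAbove.imp fun x hx i => hx ⟨i, rfl⟩
  set C : ℝ := max 1 (max C0 C1) with hC
  have hC1' : 1 ≤ C := le_max_left _ _
  have hCpos : 0 < C := lt_of_lt_of_le one_pos hC1'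
  have hC0C : C0 ≤ C := (le_max_left _ _).trans (le_max_right _ _)
  have hCiC : ∀ i, C' i ≤ C := fun i => (hC1 i).trans ((le_max_right _ _).trans (le_max_right _ _))
  have hCi : ∀ i, ∀ w ∈ W i, ∀ t : ℝ, 0 ≤ t → (∀ d ∈ D i, ‖ρ d *ᵥ w - w‖ ≤ t) → ‖w‖ ≤ C * t :=
    fun i w hw t ht h => (hC' i w hw t ht h).trans (mul_le_mul_of_nonneg_right (hCiC i) ht)
  -- the constant
  set R : ℝ := q * (C * q) with hR
  obtain ⟨ε₁, hε₁, happ⟩ := approx hLIM hI hρ h1 D R hϖ0
  set M : ℝ := q * (C * q) * 2 with hM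
  have hMpos : 0 < M := by positivity
  set ε : ℝ := min ε₁ (min ‖ϖ‖ 1) / M with hε
  have hε0 : 0 < ε := div_pos (lt_min hε₁ (lt_min hϖ0 one_pos)) hMpos
  have hMε : M * ε = min ε₁ (min ‖ϖ‖ 1) := mul_div_cancel₀ _ hMpos.ne'
  have hMε1 : M * ε ≤ ε₁ := hMε.le.trans (min_le_left _ _)
  have hMε2 : M * ε ≤ ‖ϖ‖ := hMε.le.trans ((min_le_right _ _).trans (min_le_left _ _))
  have hMε3 : M * ε ≤ 1 := hMε.le.trans ((min_le_right _ _).trans (min_le_right _ _))
  have hCq : 1 ≤ C * q := by nlinarith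
  have hk1 : q * ε ≤ ε₁ := by
    refine le_trans ?_ hMε1
    have : q ≤ M := by rw [hM]; nlinarith
    exact mul_le_mul_of_nonneg_right this hε0.le
  have hk2 : C * q * ε < 1 := by
    have h2 : C * q * 2 ≤ M := by rw [hM]; nlinarith
    have h3 : C * q * 2 * ε ≤ 1 := (mul_le_mul_of_nonneg_right h2 hε0.le).trans hMε3
    nlinarith [mul_pos (mul_pos hCpos hq0) hε0]
  have hk3 : q * (ε * (C * q)) ≤ ε₁ := by
    refine le_trans ?_ hMε1
    rw [hM]
    nlinarith [mul_pos (mul_pos hq0 (mul_pos hCpos hq0)) hε0]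
  have hk4 : ε * (C * q) ≤ ‖ϖ‖ := by
    refine le_trans ?_ hMε2
    have : C * q ≤ M := by rw [hM]; nlinarith
    rw [mul_comm]
    exact mul_le_mul_of_nonneg_right this hε0.le
  refine ⟨ε, hε0, fun L _ _ _ _ ρ' hρ' hρ'I hnear hdim => ?_⟩
  haveI : ProperSpace L := FiniteDimensional.proper E L
  haveI : CompleteSpace E := inferInstance
  obtain ⟨r, ⟨K⟩⟩ := exists_crd hORTH hϖ0 hϖ1 L
  by_contra hcon
  rw [RankLE] at hcon
  push Not at hcon
  obtain ⟨c, hc, hcind⟩ := hcon
  set ϖL : L := algebraMap E L ϖ with hϖL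
  have hϖLn : ‖ϖL‖ = ‖ϖ‖ := norm_algebraMap' L ϖ
  set U : Submodule L C(G, Fin n → L) := LinearMap.range (cobC ρ' hρ') with hU
  have hUapp : ∀ u ∈ U, ∃ x, ∀ g, u g = ρ' g *ᵥ x - x := by
    rintro u ⟨x, rfl⟩
    exact ⟨x, fun g => rfl⟩
  set cc : Fin (d + 1) → C(G, Fin n → L) := fun i => ⟨c i, (hc i).1⟩ with hcc
  obtain ⟨w, hw1, -, hw3, hw4⟩ := hORTH L C(G, Fin n → L) U (d + 1) cc ϖL (by rw [hϖLn]; exact hϖ0)
    (by rw [hϖLn]; exact hϖ1) (fun a ha => by
      by_contra hne
      obtain ⟨x, hx⟩ := hUapp _ ha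
      refine hcind a hne ⟨x, ?_⟩
      funext g
      rw [cob_apply, ← hx g, ContinuousMap.sum_apply, Finset.sum_apply]
      rfl)
  -- the functions `w i` are cocycles
  have hwc : ∀ i, (w i : G → Fin n → L) ∈ CocM ρ' I D := by
    intro i
    obtain ⟨v, hv, u, hu, hvu⟩ := Submodule.mem_sup.1 (hw1 i)
    rw [← hvu]
    have h2 : (u : G → Fin n → L) ∈ CocM ρ' I D := by
      obtain ⟨x, hx⟩ := hUapp u hu
      have : (u : G → Fin n → L) = cob ρ' x := funext hx
      rw [this]
      exact cob_mem hρ' hρ'I D x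
    have h3 : (v : G → Fin n → L) ∈ CocM ρ' I D := by
      clear hvu
      induction hv using Submodule.span_induction with
      | mem v hv =>
        obtain ⟨k, rfl⟩ := hv
        exact hc k
      | zero => exact (CocM ρ' I D).zero_mem
      | add v v' _ _ h1 h2 => exact (CocM ρ' I D).add_mem h1 h2
      | smul a v _ h1 => exact (CocM ρ' I D).smul_mem a h1
    exact (CocM ρ' I D).add_mem h3 h2
  have hwn : ∀ i g, ‖w i g‖ ≤ 1 := fun i g => ((w i).norm_coe_le_norm g).trans (hw3 i).2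
  -- the components
  have hz : ∀ i j, ∃ z ∈ CocM ρ I D, ∀ g, ‖K.co j (w i g) - z g‖ ≤ ‖ϖ‖ := by
    intro i j
    obtain ⟨hw_cont, hw_coc, hw_I, hw_D⟩ := hwc i
    refine happ (fun g => K.co j (w i g)) ((K.continuous_co hq0.le j).comp hw_cont) (fun g => ?_)
      (fun g hg => ?_) (fun g h => ?_) (fun k => ?_)
    · refine (K.norm_co hq0.le j _).trans ?_
      calc q * ‖w i g‖ ≤ q * 1 := mul_le_mul_of_nonneg_left (hwn i g) hq0.le
        _ ≤ R := by rw [hR]; exact mul_le_mul_of_nonneg_left hCq hq0.le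
    · rw [hw_I g hg, map_zero]
    · rw [← K.co_mulVec, ← map_sub, ← map_sub, hw_coc g h]
      have e : w i g + ρ' g *ᵥ w i h - w i g - (ρ g).map (algebraMap E L) *ᵥ w i h =
        ρ' g *ᵥ w i h - (ρ g).map (algebraMap E L) *ᵥ w i h := by abel
      rw [e]
      refine (K.norm_co hq0.le j _).trans (le_trans ?_ hk1)
      refine mul_le_mul_of_nonneg_left ?_ hq0.le
      refine (near_mulVec hε0.le (hnear g) _).trans ?_
      calc ε * ‖w i h‖ ≤ ε * 1 := mul_le_mul_of_nonneg_left (hwn i h) hε0.le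
        _ = ε := mul_one ε
    · obtain ⟨x, hx⟩ := hw_D k
      obtain ⟨x', hx'1, hx'2⟩ := inv_part (hW k) hCpos (hCi k) hq0 K hε0.le hk2 hnear (hdim k) x
      have hx'n : ‖x'‖ ≤ C * q := by
        have := hx'2 1 zero_le_one fun d' hd' => by rw [← hx d' hd']; exact hwn i d'
        rwa [mul_one] at this
      refine ⟨K.co j x', (K.norm_co hq0.le j x').trans (mul_le_mul_of_nonneg_left hx'n hq0.le), fun d' hd' => ?_⟩
      rw [← K.co_mulVec, ← map_sub, ← map_sub, hx d' hd', ← hx'1 d' hd']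
      have e : ρ' d' *ᵥ x' - x' - ((ρ d').map (algebraMap E L) *ᵥ x' - x') =
        ρ' d' *ᵥ x' - (ρ d').map (algebraMap E L) *ᵥ x' := by abel
      rw [e]
      refine (K.norm_co hq0.le j _).trans (le_trans ?_ hk3)
      refine mul_le_mul_of_nonneg_left ?_ hq0.le
      exact (near_mulVec hε0.le (hnear d') _).trans (mul_le_mul_of_nonneg_left hx'n hε0.le)
  choose z hz1 hz2 using hz
  have hzw : ∀ i g, ‖w i g - ∑ j, K.e j • up L (z i j g)‖ ≤ ‖ϖ‖ := by
    intro i g
    have e : w i g - ∑ j, K.e j • up L (z i j g) = ∑ j, K.e j • up L (K.co j (w i g) - z i j g) := by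
      simp only [map_sub, smul_sub, Finset.sum_sub_distrib]
      rw [K.sum_co]
    rw [e]
    exact K.norm_sum _ hϖ0.le fun j => hz2 i j g
  have hzn : ∀ i g, ‖∑ j, K.e j • up L (z i j g)‖ ≤ 1 := by
    intro i g
    have e : ∑ j, K.e j • up L (z i j g) = w i g - (w i g - ∑ j, K.e j • up L (z i j g)) := by abel
    rw [e]
    exact (sub_le_max _ _).trans (max_le (hwn i g) ((hzw i g).trans hϖ1.le))
  obtain ⟨a, ha0, x, hx⟩ := exists_relation (L := L) (fun x => cob_mem hρ hρI D x) hd K.e z hz1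
  -- the largest coefficient
  obtain ⟨i0, -, hi0⟩ := Finset.exists_max_image Finset.univ (fun i => ‖a i‖) ⟨0, Finset.mem_univ _⟩
  have hai0 : 0 < ‖a i0‖ := by
    rw [norm_pos_iff]
    intro h
    apply ha0
    funext i
    have := hi0 i (Finset.mem_univ i)
    rw [h, norm_zero] at this
    exact norm_le_zero_iff.1 this
  have hsum : ∀ g, ‖∑ i, a i • ∑ j, K.e j • up L (z i j g)‖ ≤ ‖a i0‖ := by
    intro g
    refine norm_sum_le' _ _ (norm_nonneg _) fun i _ => ?_
    rw [norm_smul]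
    calc ‖a i‖ * _ ≤ ‖a i0‖ * 1 := mul_le_mul (hi0 i (Finset.mem_univ i)) (hzn i g) (norm_nonneg _) (norm_nonneg _)
      _ = ‖a i0‖ := mul_one _
  -- a bounded vector with the same coboundary
  have hy : ∀ j, ∃ y : Fin n → E, (∀ g, ρ g *ᵥ y - y = ρ g *ᵥ K.co j x - K.co j x) ∧ ‖y‖ ≤ C * (q * ‖a i0‖) := by
    intro j
    have hx0 : K.co j x ∈ invM ρ Set.univ ⊔ W0 := by rw [hW0.sup_eq_top]; exact Submodule.mem_top
    obtain ⟨y', hy', y, hy, hyy⟩ := Submodule.mem_sup.1 hx0
    have e : ∀ g, ρ g *ᵥ y - y = ρ g *ᵥ K.co j x - K.co j x := by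
      intro g
      rw [← hyy, Matrix.mulVec_add, hy' g (Set.mem_univ g)]
      abel
    refine ⟨y, e, ?_⟩
    have h2 := hC0 y hy (q * ‖a i0‖) (mul_nonneg hq0.le (norm_nonneg _)) fun g _ => by
      rw [e g, ← K.co_mulVec, ← map_sub, ← hx g]
      exact (K.norm_co hq0.le j _).trans (mul_le_mul_of_nonneg_left (hsum g) hq0.le)
    exact h2.trans (mul_le_mul_of_nonneg_right hC0C (mul_nonneg hq0.le (norm_nonneg _)))
  choose y hy1 hy2 using hy
  set x' : Fin n → L := ∑ j, K.e j • up L (y j) with hx'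
  have hx'n : ‖x'‖ ≤ C * (q * ‖a i0‖) := K.norm_sum _ (by positivity) hy2
  have hx'e : ∀ g, (ρ g).map (algebraMap E L) *ᵥ x' - x' = (ρ g).map (algebraMap E L) *ᵥ x - x := by
    intro g
    have e1 : ∀ v : Fin r → Fin n → E, (ρ g).map (algebraMap E L) *ᵥ (∑ j, K.e j • up L (v j)) -
        ∑ j, K.e j • up L (v j) = ∑ j, K.e j • up L (ρ g *ᵥ v j - v j) := by
      intro v
      rw [Matrix.mulVec_sum]
      simp only [map_sub, smul_sub, Finset.sum_sub_distrib, up_mulVec, Matrix.mulVec_smul]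
    rw [hx', e1]
    conv_rhs => rw [← K.sum_co x, e1]
    exact Finset.sum_congr rfl fun j _ => by rw [hy1 j g]
  have hfin := hw4 a (-(cobC ρ' hρ' x')) (U.neg_mem ⟨x', rfl⟩) i0
  have hup : ‖∑ j, a j • w j + -(cobC ρ' hρ' x')‖ ≤ ‖a i0‖ * ‖ϖ‖ := by
    rw [ContinuousMap.norm_le _ (by positivity)]
    intro g
    have e : (∑ j, a j • w j + -(cobC ρ' hρ' x')) g = (∑ i, a i • (w i g - ∑ j, K.e j • up L (z i j g))) -
        (ρ' g *ᵥ x' - (ρ g).map (algebraMap E L) *ᵥ x') := by
      simp only [smul_sub, Finset.sum_sub_distrib]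
      rw [hx g, ← hx'e g, ContinuousMap.add_apply, ContinuousMap.neg_apply, ContinuousMap.sum_apply]
      show (∑ i, a i • w i g) + -(ρ' g *ᵥ x' - x') = _
      abel
    rw [e]
    refine (sub_le_max _ _).trans (max_le ?_ ?_)
    · refine norm_sum_le' _ _ (by positivity) fun i _ => ?_
      rw [norm_smul]
      exact mul_le_mul (hi0 i (Finset.mem_univ i)) (hzw i g) (norm_nonneg _) (norm_nonneg _)
    · refine (near_mulVec hε0.le (hnear g) x').trans ?_
      calc ε * ‖x'‖ ≤ ε * (C * (q * ‖a i0‖)) := mul_le_mul_of_nonneg_left hx'n hε0.le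
        _ = ‖a i0‖ * (ε * (C * q)) := by ring
        _ ≤ ‖a i0‖ * ‖ϖ‖ := mul_le_mul_of_nonneg_left hk4 (norm_nonneg _)
  rw [norm_smul] at hfin
  have h5 := (hw3 i0).1
  rw [hϖLn] at h5
  have h6 : ‖a i0‖ * ‖ϖ‖ < ‖a i0‖ * ‖w i0‖ := mul_lt_mul_of_pos_left h5 hai0
  linarith [hfin.trans hup]

end Pool.Agent.H499.SM
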